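import Mathlib

/-!
Common definitions for the proof of the `n/d` conjecture for complex hyperplane arrangements.

* `Vec k N` : linear forms in `N + 1` variables, seen as affine functions on the chart `x_0 = 1`
  (coordinate `0` is the constant term).
* `Env K F N` : a field `F` over `K` with coordinate functions and commuting partial derivatives.
-/

namespace Pool.Agent.helper67.ND

open scoped BigOperators

/-- Affine functions in `N` variables (coordinate `0` is the constant term). -/
abbrev Vec (k : Type) (N : ℕ) : Type := Fin (N + 1) → k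

/-- The constant function `1`. -/
def e0 (k : Type) [Field k] (N : ℕ) : Vec k N := Pi.single 0 1

/-- A field `F` over `K` with coordinates `y` and commuting derivations `D` dual to them. -/
structure Env (K F : Type) [Field K] [Field F] [Algebra K F] (N : ℕ) where
  /-- coordinates -/
  y : Fin N → F
  /-- partial derivatives -/
  D : Fin N → Derivation K F F
  D_y : ∀ i j, D i (y j) = if i = j then 1 else 0
  D_comm : ∀ i j f, D i (D j f) = D j (D i f)

section

variable {k K F : Type} [Field k] [Field K] [Field F] [Algebra k K] [Algebra K F] {N : ℕ}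

/-- The affine function attached to a vector. -/
def Env.aff (En : Env K F N) (v : Vec k N) : F :=
  algebraMap K F (algebraMap k K (v 0))
    + ∑ i, algebraMap K F (algebraMap k K (v i.succ)) * En.y i

/-- `v` has its last nonzero coordinate, equal to `1`, at `m`. -/
def IsLvl (v : Vec k N) (m : Fin (N + 1)) : Prop := v m = 1 ∧ ∀ m', m < m' → v m' = 0

/-- The vectors whose coordinates of index `> j` vanish. -/
def Lv (k : Type) [Field k] (N j : ℕ) : Submodule k (Vec k N) where
  carrier := {v | ∀ m : Fin (N + 1), j < (m : ℕ) → v m = 0}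
  add_mem' := by
    intro a b ha hb m hm
    simp [ha m hm, hb m hm]
  zero_mem' := by intro m _; rfl
  smul_mem' := by
    intro c a ha m hm
    simp [ha m hm]

/-- A tower: a finite set of normalised vectors containing `1` and closed under differences of
vectors of the same level, up to scalars. -/
structure Tower (H : Finset (Vec k N)) : Prop where
  e0_mem : e0 k N ∈ H
  lvl : ∀ v ∈ H, ∃ m, IsLvl v m
  closed : ∀ v ∈ H, ∀ w ∈ H, ∀ m, IsLvl v m → IsLvl w m → v ≠ w →
    ∃ l ∈ H, ∃ c : k, c ≠ 0 ∧ v - w = c • l

open Classical in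
/-- The elements of `H` lying in the subspace `W`. -/
noncomputable def inW (H : Finset (Vec k N)) (W : Submodule k (Vec k N)) : Finset (Vec k N) :=
  H.filter (fun v => v ∈ W)

/-- The ring of functions at level `j` of the tower `H`. -/
def ringAt (En : Env K F N) (H : Finset (Vec k N)) (j : ℕ) : Subalgebra K F :=
  Algebra.adjoin K ({f | ∃ i : Fin N, (i : ℕ) < j ∧ f = En.y i} ∪
    {f | ∃ v ∈ H, v ∈ Lv k N j ∧ f = (En.aff v)⁻¹})

/-- The `j × j` determinant of the linear parts of `j` vectors of level `≤ j`
(columns in the order `j, j - 1, ..., 1`). -/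
noncomputable def ldet {j : ℕ} (hj : j ≤ N) (v : Fin j → Vec k N) : k :=
  Matrix.det (Matrix.of fun (a i : Fin j) => v a ⟨j - (i : ℕ), by omega⟩)

/-- The logarithmic form attached to `j` vectors. -/
noncomputable def Env.logf (En : Env K F N) {j : ℕ} (hj : j ≤ N) (v : Fin j → Vec k N) : F :=
  algebraMap K F (algebraMap k K (ldet hj v)) * ∏ a, (En.aff (v a))⁻¹

/-! ## The kernel on the Orlik-Solomon algebra -/

section OS

variable {ι : Type} [Fintype ι] {V : Type} [AddCommGroup V] [Module k V]

open Classical in
/-- The sum of the exponents of the forms lying in `W`. -/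
noncomputable def al (l : ι → V) (α : ι → K) (W : Submodule k V) : K :=
  ∑ i, if l i ∈ W then α i else 0

open Classical in
/-- Restriction of the generators to those lying in `W`. -/
noncomputable def resW (l : ι → V) (W : Submodule k V) : (ι → k) →ₗ[k] (ι → k) where
  toFun x := fun i => if l i ∈ W then x i else 0
  map_add' := by intro x y; ext i; simp only [Pi.add_apply]; split_ifs <;> simp
  map_smul' := by intro c x; ext i; simp only [Pi.smul_apply, RingHom.id_apply]; split_ifs <;> simp

/-- The induced algebra endomorphism of the exterior algebra. -/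
noncomputable def rho (l : ι → V) (W : Submodule k V) :
    ExteriorAlgebra k (ι → k) →ₐ[k] ExteriorAlgebra k (ι → k) :=
  ExteriorAlgebra.map (resW l W)

/-- The sum of coordinates. -/
noncomputable def sumDual (k ι : Type) [Field k] [Fintype ι] : Module.Dual k (ι → k) :=
  ∑ i, LinearMap.proj i

/-- The derivation `∂` of the exterior algebra with `∂ e_i = 1`. -/
noncomputable def bd (k ι : Type) [Field k] [Fintype ι] :
    ExteriorAlgebra k (ι → k) →ₗ[k] ExteriorAlgebra k (ι → k) :=
  CliffordAlgebra.contractLeft (Q := (0 : QuadraticForm k (ι → k))) (sumDual k ι)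

open Classical in
/-- The kernel `S_r(J, ψ)`. -/
noncomputable def S (l : ι → V) (α : ι → K) :
    (r : ℕ) → (Fin r → V) → (ExteriorAlgebra k (ι → k) →ₗ[k] K)
  | 0, _ => (Algebra.linearMap k K) ∘ₗ
      (ExteriorAlgebra.algebraMapInv : ExteriorAlgebra k (ι → k) →ₐ[k] k).toLinearMap
  | r + 1, J =>
      if LinearIndependent k J then
        (al l α (Submodule.span k (Set.range J)))⁻¹ • ∑ i : Fin (r + 1),
          ((-1 : ℤ) ^ (i : ℕ)) • ((S l α r (J ∘ i.succAbove)) ∘ₗ (bd k ι) ∘ₗ
            (rho l (Submodule.span k (Set.range J))).toLinearMap)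
      else 0

end OS

end

section B

variable {k : Type} [Field k] {ι : Type} {V : Type} [AddCommGroup V] [Module k V]

/-- Indecomposable family of vectors. -/
def Conn (l : ι → V) : Prop := ∀ s : Set ι, s.Nonempty → sᶜ.Nonempty →
  ¬ Disjoint (Submodule.span k (l '' s)) (Submodule.span k (l '' sᶜ))

end B

section C

variable {k K F : Type} [Field k] [Field K] [Field F] [Algebra k K] [Algebra K F] {N : ℕ}

/-- The ring `A[z, 1/(z - c_i)]`. -/
def extRing {ι : Type} (A : Subalgebra K F) (z : F) (c : ι → F) : Subalgebra K F :=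
  Algebra.adjoin K ((A : Set F) ∪ {z} ∪ Set.range (fun i => (z - c i)⁻¹))

variable {U : Type} [AddCommGroup U] [Module K U]

/-- (IB) and (NR) at level `j`. -/
structure Good (H : Finset (Vec k N)) (j : ℕ) (B : Vec k N → Module.End K U) : Prop where
  sum_zero : ∑ v ∈ inW H (Lv k N j), B v = 0
  comm : ∀ W : Submodule k (Vec k N), ∀ v ∈ inW H (Lv k N j), v ∈ W →
    Commute (B v) (∑ w ∈ inW H (Lv k N j ⊓ W), B w)
  inj : ∀ W : Submodule k (Vec k N), ∀ m : ℤ, m ≠ 0 →
    Function.Injective (fun u => (∑ w ∈ inW H (Lv k N j ⊓ W), B w) u - (m : K) • u)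

/-- The elements of `H` of level exactly `j`. -/
abbrev Top (H : Finset (Vec k N)) (j : Fin (N + 1)) : Type := {v : Vec k N // v ∈ H ∧ IsLvl v j}

open Classical in
noncomputable instance (H : Finset (Vec k N)) (j : Fin (N + 1)) : Fintype (Top H j) :=
  Fintype.ofFinset (H.filter (fun v => IsLvl v j)) (by intro x; simp; rfl)

open Classical in
/-- The induced operators one level down. -/
noncomputable def Bp (H : Finset (Vec k N)) (j : Fin (N + 1)) (B : Vec k N → Module.End K U)
    (l : Vec k N) : Module.End K (Top H j → U) where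
  toFun x := fun v => B l (x v) +
    ∑ w : Top H j, if (∃ c : k, c ≠ 0 ∧ v.1 - w.1 = c • l) then B w.1 (x v - x w) else 0
  map_add' := by
    intro x y
    funext v
    simp only [Pi.add_apply, map_add]
    rw [add_add_add_comm, ← Finset.sum_add_distrib]
    congr 1
    refine Finset.sum_congr rfl fun w _ => ?_
    split_ifs
    · rw [← map_add]; congr 1; abel
    · simp
  map_smul' := by
    intro c x
    funext v
    simp only [Pi.smul_apply, map_smul, RingHom.id_apply, smul_add, Finset.smul_sum]
    congr 1
    refine Finset.sum_congr rfl fun w _ => ?_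
    split_ifs
    · rw [← smul_sub, map_smul]
    · simp

/-- The subspace `∑ B_v x_v = 0`. -/
noncomputable def Uker (H : Finset (Vec k N)) (j : Fin (N + 1)) (B : Vec k N → Module.End K U) :
    Submodule K (Top H j → U) :=
  LinearMap.ker (∑ v : Top H j, (B v.1) ∘ₗ (LinearMap.proj v : (Top H j → U) →ₗ[K] U))

/-- An Orlik-Solomon function on `j`-tuples of the tower. -/
structure OSfun {U : Type} [AddCommGroup U] [Module K U] (H : Finset (Vec k N)) (j : ℕ)
    (x : (Fin j → Vec k N) → U) : Prop where
  dep : ∀ v, (∀ a, v a ∈ inW H (Lv k N j)) → ¬ LinearIndependent k v → x v = 0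
  one : ∀ v, (∀ a, v a ∈ inW H (Lv k N j)) → e0 k N ∈ Submodule.span k (Set.range v) → x v = 0
  os : ∀ C : Fin (j + 1) → Vec k N, (∀ a, C a ∈ inW H (Lv k N j)) → ¬ LinearIndependent k C →
    ∑ i : Fin (j + 1), ((-1 : ℤ) ^ (i : ℕ)) • x (C ∘ i.succAbove) = 0

end C

section G

open MvPolynomial

variable {k : Type} [Field k]

/-- The polynomial of the arrangement. -/
noncomputable def arrP {ι : Type} [Fintype ι] {n : ℕ} (l : ι → Fin n → k) (μ : ι → ℕ) :
    MvPolynomial (Fin n) k :=
  ∏ i, (∑ j, C (l i j) * X j) ^ μ i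

/-- The numerators of the iterated twisted derivatives: `∇_w f = Nw f s w / f ^ |w|`. -/
noncomputable def Nw {A : Type} [CommRing A] {n : ℕ} (f : MvPolynomial (Fin n) A) (s : A) :
    List (Fin n) → MvPolynomial (Fin n) A
  | [] => f
  | i :: w => f * pderiv i (Nw f s w) + C (s - (w.length : A)) * (pderiv i f * Nw f s w)

end G

section E

open Filter Topology

/-- The operator `∇_i` on functions: `(∇_i g) f ^ s = ∂_i (g f ^ s)`, that is
`∇_i g = ∂_i g + s (∂_i f / f) g`. -/
noncomputable def nabla {n : ℕ} (f : (Fin n → ℂ) → ℂ) (s : ℂ) (i : Fin n)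
    (g : (Fin n → ℂ) → ℂ) : (Fin n → ℂ) → ℂ :=
  fun z => fderiv ℂ g z (Pi.single i 1) + s * (fderiv ℂ f z (Pi.single i 1) / f z) * g z

/-- `IsBernstein f b`: there is a differential operator `P(s) = ∑ a_t(z) s^j ∂_w` with coefficients
`a_t` holomorphic near `0` (the sum is over finitely many pairs `t = (w, j)` of a word `w` in the
variables and an exponent `j`) such that `P(s) f ^ (s + 1) = b(s) f ^ s` near `0`, where
`∂_w (f ^ (s+1)) = (∇_w f) f ^ s`. -/
def IsBernstein {n : ℕ} (f : (Fin n → ℂ) → ℂ) (b : Polynomial ℂ) : Prop :=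
  ∃ (T : Finset (List (Fin n) × ℕ)) (a : List (Fin n) × ℕ → (Fin n → ℂ) → ℂ),
    (∀ t ∈ T, AnalyticAt ℂ (a t) 0) ∧
    ∀ᶠ z in 𝓝 (0 : Fin n → ℂ), f z ≠ 0 → ∀ s : ℂ,
      ∑ t ∈ T, a t z * s ^ t.2 * (t.1.foldr (nabla f s) f) z = b.eval s

/-- The product of powers of linear forms (`A i` is the coefficient vector of the `i`-th form). -/
noncomputable def arrC {n : ℕ} {ι : Type} [Fintype ι] (A : ι → Fin n → ℂ) (mu : ι → ℕ) :
    (Fin n → ℂ) → ℂ :=
  fun z => ∏ i, (∑ j, A i j * z j) ^ mu i

/-- The rank of a set of forms, that is the codimension of the intersection of the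
hyperplanes indexed by `S`. -/
noncomputable def rkC {n : ℕ} {ι : Type} (A : ι → Fin n → ℂ) (S : Finset ι) : ℕ :=
  Module.finrank ℂ (Submodule.span ℂ (A '' (S : Set ι)))

/-- `X` is (the set of hyperplanes containing) a dense edge: it is nonempty, it contains every
hyperplane which contains the intersection of the hyperplanes in `X`, and it is indecomposable:
for no decomposition into two nonempty parts do the ranks add up to the rank of `X`. -/
structure IsDenseEdgeC {n : ℕ} {ι : Type} [DecidableEq ι] (A : ι → Fin n → ℂ)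
    (X : Finset ι) : Prop where
  nonempty : X.Nonempty
  flat : ∀ i, A i ∈ Submodule.span ℂ (A '' (X : Set ι)) → i ∈ X
  indec : ∀ S ⊆ X, S.Nonempty → S ≠ X → rkC A S + rkC A (X \ S) ≠ rkC A X

end E

end Pool.Agent.helper67.ND
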