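import Mathlib
import Pool.Agent.helper67.ND.Defs

/-! Basic facts about affine functions and the rings `ringAt`. -/

namespace Pool.Agent.helper67.ND

open scoped BigOperators

variable {k K F : Type} [Field k] [Field K] [Field F] [Algebra k K] [Algebra K F] {N : ℕ}

/-- the inclusion of constants -/
noncomputable def Env.cst (_En : Env K F N) : k →+* F := (algebraMap K F).comp (algebraMap k K)

lemma Env.aff_def (En : Env K F N) (v : Vec k N) :
    En.aff v = En.cst (v 0) + ∑ i, En.cst (v i.succ) * En.y i := rfl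

lemma Env.aff_add (En : Env K F N) (v w : Vec k N) : En.aff (v + w) = En.aff v + En.aff w := by
  simp only [En.aff_def, Pi.add_apply, map_add, add_mul, Finset.sum_add_distrib]
  ring

lemma Env.aff_smul (En : Env K F N) (c : k) (v : Vec k N) :
    En.aff (c • v) = En.cst c * En.aff v := by
  simp only [En.aff_def, Pi.smul_apply, smul_eq_mul, map_mul, mul_add, Finset.mul_sum]
  congr 1
  exact Finset.sum_congr rfl fun i _ => by ring

lemma Env.aff_neg (En : Env K F N) (v : Vec k N) : En.aff (-v) = - En.aff v := by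
  have := En.aff_smul (-1 : k) v
  simpa using this

lemma Env.aff_sub (En : Env K F N) (v w : Vec k N) : En.aff (v - w) = En.aff v - En.aff w := by
  rw [sub_eq_add_neg, En.aff_add, En.aff_neg, sub_eq_add_neg]

@[simp] lemma Env.aff_zero (En : Env K F N) : En.aff (0 : Vec k N) = 0 := by
  simp [En.aff_def]

lemma Env.aff_sum (En : Env K F N) {ι : Type} (s : Finset ι) (f : ι → Vec k N) :
    En.aff (∑ i ∈ s, f i) = ∑ i ∈ s, En.aff (f i) := by
  classical
  induction s using Finset.induction_on with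
  | empty => simp
  | insert a s ha ih => rw [Finset.sum_insert ha, Finset.sum_insert ha, En.aff_add, ih]

lemma Env.aff_e0 (En : Env K F N) : En.aff (e0 k N) = 1 := by
  simp [En.aff_def, e0, Fin.succ_ne_zero]

lemma Env.D_cst (En : Env K F N) (i : Fin N) (c : k) : En.D i (En.cst c) = 0 := by
  simp [Env.cst]

lemma Env.D_aff (En : Env K F N) (i : Fin N) (v : Vec k N) :
    En.D i (En.aff v) = En.cst (v i.succ) := by
  rw [En.aff_def, map_add, En.D_cst, map_sum, zero_add]
  rw [Finset.sum_eq_single i]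
  · rw [Derivation.leibniz, En.D_cst, En.D_y]; simp
  · intro j _ hj
    rw [Derivation.leibniz, En.D_cst, En.D_y, if_neg (Ne.symm hj)]; simp
  · intro h; exact absurd (Finset.mem_univ i) h

lemma Env.aff_injective (En : Env K F N) {v : Vec k N} (h : En.aff v = 0) : v = 0 := by
  have h1 : ∀ i : Fin N, v i.succ = 0 := by
    intro i
    have := En.D_aff i v
    rw [h, map_zero] at this
    exact (map_eq_zero _).1 this.symm
  have h2 : v 0 = 0 := by
    rw [En.aff_def] at h
    simp only [h1, map_zero, zero_mul, Finset.sum_const_zero, add_zero] at h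
    exact (map_eq_zero _).1 h
  funext m
  refine Fin.cases h2 h1 m

lemma Env.aff_ne_zero (En : Env K F N) {v : Vec k N} (h : v ≠ 0) : En.aff v ≠ 0 :=
  fun h' => h (En.aff_injective h')

lemma Env.D_inv (En : Env K F N) (i : Fin N) (a : F) :
    En.D i a⁻¹ = - (a⁻¹ * a⁻¹ * En.D i a) := by
  rw [Derivation.leibniz_inv]
  rw [smul_eq_mul, pow_two]; ring

lemma IsLvl.ne_zero {v : Vec k N} {m : Fin (N + 1)} (h : IsLvl v m) : v ≠ 0 := by
  rintro rfl
  exact zero_ne_one h.1

lemma IsLvl.unique {v : Vec k N} {m m' : Fin (N + 1)} (h : IsLvl v m) (h' : IsLvl v m') :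
    m = m' := by
  rcases lt_trichotomy m m' with h1 | h1 | h1
  · exact absurd (h'.1.symm.trans (h.2 _ h1)) one_ne_zero
  · exact h1
  · exact absurd (h.1.symm.trans (h'.2 _ h1)) one_ne_zero

lemma IsLvl.mem_Lv {v : Vec k N} {m : Fin (N + 1)} (h : IsLvl v m) {j : ℕ} (hj : (m : ℕ) ≤ j) :
    v ∈ Lv k N j := by
  intro m' hm'
  exact h.2 m' (Fin.lt_def.2 (lt_of_le_of_lt hj hm'))

lemma mem_Lv_iff {v : Vec k N} {j : ℕ} : v ∈ Lv k N j ↔ ∀ m : Fin (N + 1), j < (m : ℕ) → v m = 0 :=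
  Iff.rfl

lemma IsLvl.le_of_mem_Lv {v : Vec k N} {m : Fin (N + 1)} (h : IsLvl v m) {j : ℕ}
    (hv : v ∈ Lv k N j) : (m : ℕ) ≤ j := by
  by_contra hlt
  push Not at hlt
  exact one_ne_zero (h.1.symm.trans (hv m hlt))

lemma Lv_mono {i j : ℕ} (h : i ≤ j) : Lv k N i ≤ Lv k N j := by
  intro v hv m hm
  exact hv m (lt_of_le_of_lt h hm)

lemma mem_inW {H : Finset (Vec k N)} {W : Submodule k (Vec k N)} {v : Vec k N} :
    v ∈ inW H W ↔ v ∈ H ∧ v ∈ W := by
  classical
  simp [inW]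

lemma Tower.ne_zero {H : Finset (Vec k N)} (hH : Tower H) {v : Vec k N} (hv : v ∈ H) : v ≠ 0 :=
  (hH.lvl v hv).choose_spec.ne_zero

/-- the elements of `H` of level `≤ j + 1` are those of level `≤ j` and those of level `j + 1`. -/
lemma mem_inW_succ {H : Finset (Vec k N)} (hH : Tower H) {j : ℕ} (hj : j + 1 < N + 1)
    {v : Vec k N} : v ∈ inW H (Lv k N (j + 1)) ↔
      v ∈ inW H (Lv k N j) ∨ (v ∈ H ∧ IsLvl v ⟨j + 1, hj⟩) := by
  rw [mem_inW, mem_inW]
  constructor
  · rintro ⟨h1, h2⟩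
    obtain ⟨m, hm⟩ := hH.lvl v h1
    have := hm.le_of_mem_Lv h2
    rcases Nat.lt_or_ge (m : ℕ) (j + 1) with h3 | h3
    · exact Or.inl ⟨h1, hm.mem_Lv (Nat.lt_succ_iff.1 h3)⟩
    · have : m = ⟨j + 1, hj⟩ := Fin.ext (le_antisymm this h3)
      exact Or.inr ⟨h1, this ▸ hm⟩
  · rintro (⟨h1, h2⟩ | ⟨h1, h2⟩)
    · exact ⟨h1, Lv_mono (Nat.le_succ j) h2⟩
    · exact ⟨h1, h2.mem_Lv le_rfl⟩

lemma not_isLvl_of_mem_Lv {j : ℕ} (hj : j + 1 < N + 1) {v : Vec k N} (hv : v ∈ Lv k N j) :
    ¬ IsLvl v ⟨j + 1, hj⟩ := by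
  intro h
  have := h.le_of_mem_Lv hv
  simp at this

/-- splitting a sum over the elements of level `≤ j + 1`. -/
lemma sum_inW_succ {H : Finset (Vec k N)} (hH : Tower H) {j : ℕ} (hj : j + 1 < N + 1)
    {M : Type} [AddCommMonoid M] (f : Vec k N → M) :
    ∑ v ∈ inW H (Lv k N (j + 1)), f v =
      ∑ v ∈ inW H (Lv k N j), f v + ∑ v : Top H ⟨j + 1, hj⟩, f v.1 := by
  classical
  have h1 : inW H (Lv k N (j + 1)) =
      inW H (Lv k N j) ∪ H.filter (fun v => IsLvl v ⟨j + 1, hj⟩) := by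
    ext v
    rw [Finset.mem_union, mem_inW_succ hH hj, Finset.mem_filter]
  rw [h1, Finset.sum_union]
  · congr 1
    rw [← Finset.sum_subtype (H.filter (fun v => IsLvl v ⟨j + 1, hj⟩))
      (p := fun v => v ∈ H ∧ IsLvl v ⟨j + 1, hj⟩) (f := f)]
    intro x
    simp
  · rw [Finset.disjoint_left]
    intro v hv hv'
    exact not_isLvl_of_mem_Lv hj (mem_inW.1 hv).2 (Finset.mem_filter.1 hv').2

section ring

variable (En : Env K F N) (H : Finset (Vec k N))

lemma cst_mem_ringAt (j : ℕ) (c : k) : En.cst c ∈ ringAt En H j :=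
  Subalgebra.algebraMap_mem _ _

lemma y_mem_ringAt {j : ℕ} {i : Fin N} (hi : (i : ℕ) < j) : En.y i ∈ ringAt En H j :=
  Algebra.subset_adjoin (Or.inl ⟨i, hi, rfl⟩)

lemma aff_mem_ringAt {j : ℕ} {v : Vec k N} (hv : v ∈ Lv k N j) : En.aff v ∈ ringAt En H j := by
  rw [En.aff_def]
  refine Subalgebra.add_mem _ (cst_mem_ringAt En H j _) (Subalgebra.sum_mem _ fun i _ => ?_)
  by_cases hi : (i : ℕ) < j
  · exact Subalgebra.mul_mem _ (cst_mem_ringAt En H j _) (y_mem_ringAt En H hi)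
  · have : v i.succ = 0 := hv _ (by simp; omega)
    rw [this]; simp

lemma inv_mem_ringAt {j : ℕ} {v : Vec k N} (hv : v ∈ inW H (Lv k N j)) :
    (En.aff v)⁻¹ ∈ ringAt En H j :=
  Algebra.subset_adjoin (Or.inr ⟨v, (mem_inW.1 hv).1, (mem_inW.1 hv).2, rfl⟩)

lemma ringAt_mono {i j : ℕ} (h : i ≤ j) : ringAt En H i ≤ ringAt En H j := by
  refine Algebra.adjoin_mono (Set.union_subset_union ?_ ?_)
  · rintro f ⟨a, ha, rfl⟩
    exact ⟨a, lt_of_lt_of_le ha h, rfl⟩
  · rintro f ⟨v, hv, hv', rfl⟩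
    exact ⟨v, hv, Lv_mono h hv', rfl⟩

/-- the derivations preserve the rings -/
lemma D_mem_ringAt {j : ℕ} (i : Fin N) {s : F} (hs : s ∈ ringAt En H j) :
    En.D i s ∈ ringAt En H j := by
  induction hs using Algebra.adjoin_induction with
  | mem x hx =>
    rcases hx with ⟨a, ha, rfl⟩ | ⟨v, hv, hv', rfl⟩
    · rw [En.D_y]; split_ifs
      · exact Subalgebra.one_mem _
      · exact Subalgebra.zero_mem _
    · rw [En.D_inv, En.D_aff]
      have := inv_mem_ringAt En H (mem_inW.2 ⟨hv, hv'⟩)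
      exact Subalgebra.neg_mem _ (Subalgebra.mul_mem _ (Subalgebra.mul_mem _ this this)
        (cst_mem_ringAt En H j _))
  | algebraMap r => simp
  | add x y _ _ hx hy => rw [map_add]; exact Subalgebra.add_mem _ hx hy
  | mul x y hx' hy' hx hy =>
    rw [Derivation.leibniz]
    exact Subalgebra.add_mem _ (Subalgebra.mul_mem _ hx' hy) (Subalgebra.mul_mem _ hy' hx)

/-- the derivations in the higher variables vanish -/
lemma D_eq_zero_ringAt {j : ℕ} (i : Fin N) (hi : j ≤ (i : ℕ)) {s : F} (hs : s ∈ ringAt En H j) :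
    En.D i s = 0 := by
  induction hs using Algebra.adjoin_induction with
  | mem x hx =>
    rcases hx with ⟨a, ha, rfl⟩ | ⟨v, hv, hv', rfl⟩
    · rw [En.D_y, if_neg]
      rintro rfl
      omega
    · rw [En.D_inv, En.D_aff, hv' i.succ (by simp; omega)]
      simp
  | algebraMap r => simp
  | add x y _ _ hx hy => rw [map_add, hx, hy, add_zero]
  | mul x y hx' hy' hx hy => rw [Derivation.leibniz, hx, hy]; simp

end ring

end Pool.Agent.helper67.ND
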