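import Mathlib
import Pool.Agent.helper67.ND.C3a

/-! Orlik-Solomon functions: moving entries to the front, the three term relation, and the
straightening argument. -/

namespace Pool.Agent.helper67.ND

open scoped BigOperators

variable {k K F : Type} [Field k] [Field K] [Field F] [Algebra k K] [Algebra K F] {N : ℕ}
variable {U : Type} [AddCommGroup U] [Module K U]

lemma not_li_of_eq {j : ℕ} {C : Fin j → Vec k N} {a b : Fin j} (hab : a ≠ b) (h : C a = C b) :
    ¬ LinearIndependent k C := fun hC => hab (hC.injective h)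

/-- three vectors in a tuple with a linear relation. -/
lemma not_li_of_rel {j : ℕ} {C : Fin j → Vec k N} {a b d : Fin j} (hab : a ≠ b) (had : a ≠ d)
    {c : k} (h : C a - C b = c • C d) : ¬ LinearIndependent k C := by
  classical
  intro hC
  rw [linearIndependent_iff'] at hC
  by_cases hbd : b = d
  · subst hbd
    have h0 : C a = (1 + c) • C b := by rw [add_smul, one_smul, ← h]; abel
    have := hC {a, b} (fun i => if i = a then 1 else - (1 + c)) (by
      rw [Finset.sum_pair hab]
      simp only [if_true, if_neg hab.symm, one_smul, neg_smul, ← h0]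
      abel) a (by simp)
    simp at this
  · have := hC {a, b, d} (fun i => if i = a then 1 else if i = b then -1 else - c) (by
      rw [Finset.sum_insert (by simp [hab, had]), Finset.sum_pair hbd]
      simp only [if_true, if_neg hab.symm, if_neg had.symm, if_neg (Ne.symm hbd), one_smul,
        neg_smul, ← h]
      abel) a (by simp)
    simp at this

/-- (MF) moving an entry to the front. -/
lemma OSfun.front {H : Finset (Vec k N)} {j : ℕ} {x : (Fin (j + 1) → Vec k N) → U}
    (hx : OSfun (K := K) H (j + 1) x) (v : Fin (j + 1) → Vec k N)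
    (hv : ∀ a, v a ∈ inW H (Lv k N (j + 1))) (a : Fin (j + 1)) :
    x v = ((-1 : ℤ) ^ (a : ℕ)) • x (Fin.cons (v a) (v ∘ a.succAbove)) := by
  have hdep : ¬ LinearIndependent k (Fin.cons (v a) v : Fin (j + 2) → Vec k N) := by
    refine not_li_of_eq (a := 0) (b := a.succ) (Fin.succ_ne_zero a).symm ?_
    simp
  have hmem : ∀ b, (Fin.cons (v a) v : Fin (j + 2) → Vec k N) b ∈ inW H (Lv k N (j + 1)) := by
    intro b
    refine Fin.cases ?_ ?_ b
    · simpa using hv a
    · intro b; simpa using hv b
  have h := hx.os _ hmem hdep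
  rw [Fin.sum_univ_succ] at h
  have e0 : (Fin.cons (v a) v : Fin (j + 2) → Vec k N) ∘ (0 : Fin (j + 2)).succAbove = v := by
    funext b; simp
  rw [e0] at h
  rw [Finset.sum_eq_single a] at h
  · have e1 : (Fin.cons (v a) v : Fin (j + 2) → Vec k N) ∘ (a.succ).succAbove =
        Fin.cons (v a) (v ∘ a.succAbove) := by
      funext b
      refine Fin.cases ?_ ?_ b
      · simp
      · intro b
        simp [Fin.succ_succAbove_succ]
    rw [e1] at h
    simp only [Fin.val_zero, pow_zero, one_smul, Fin.val_succ, pow_succ, mul_neg, mul_one,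
      neg_smul] at h
    exact eq_of_sub_eq_zero (by simpa [sub_eq_add_neg] using h)
  · intro b _ hb
    have : x ((Fin.cons (v a) v : Fin (j + 2) → Vec k N) ∘ (b.succ).succAbove) = 0 := by
      refine hx.dep _ (fun c => hmem _) ?_
      obtain ⟨c, hc⟩ := Fin.exists_succAbove_eq (x := a) (y := b) hb.symm
      refine not_li_of_eq (a := 0) (b := c.succ) (Fin.succ_ne_zero c).symm ?_
      simp [Fin.succ_succAbove_succ, hc]
    rw [this, smul_zero]
  · intro h'; exact absurd (Finset.mem_univ a) h'

/-- swapping the first two entries -/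
lemma OSfun.swap {H : Finset (Vec k N)} {j : ℕ} {x : (Fin (j + 2) → Vec k N) → U}
    (hx : OSfun (K := K) H (j + 2) x) (p q : Vec k N) (v : Fin j → Vec k N)
    (hp : p ∈ inW H (Lv k N (j + 2))) (hq : q ∈ inW H (Lv k N (j + 2)))
    (hv : ∀ a, v a ∈ inW H (Lv k N (j + 2))) :
    x (Fin.cons p (Fin.cons q v : Fin (j + 1) → Vec k N)) =
      - x (Fin.cons q (Fin.cons p v : Fin (j + 1) → Vec k N)) := by
  have hmem : ∀ b, (Fin.cons p (Fin.cons q v : Fin (j + 1) → Vec k N) : Fin (j + 2) → Vec k N) b
      ∈ inW H (Lv k N (j + 2)) := by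
    intro b
    refine Fin.cases (by simpa using hp) (fun b => ?_) b
    refine Fin.cases (by simpa using hq) (fun b => ?_) b
    simpa using hv b
  have := hx.front _ hmem 1
  have e : (Fin.cons p (Fin.cons q v : Fin (j + 1) → Vec k N) : Fin (j + 2) → Vec k N) ∘
      (1 : Fin (j + 2)).succAbove = Fin.cons p v := by
    funext b
    refine Fin.cases (by simp) (fun b => ?_) b
    have : (1 : Fin (j + 2)) = (0 : Fin (j + 1)).succ := rfl
    rw [this, Function.comp, Fin.succ_succAbove_succ]
    simp
  rw [e] at this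
  rw [this]
  have h1 : (Fin.cons p (Fin.cons q v : Fin (j + 1) → Vec k N) : Fin (j + 2) → Vec k N) 1 = q := by
    have : (1 : Fin (j + 2)) = (0 : Fin (j + 1)).succ := rfl
    rw [this]; simp
  rw [h1]
  simp

/-- three term relation -/
lemma OSfun.three {H : Finset (Vec k N)} {j : ℕ} {x : (Fin (j + 2) → Vec k N) → U}
    (hx : OSfun (K := K) H (j + 2) x) (p q l : Vec k N) (v : Fin j → Vec k N)
    (hp : p ∈ inW H (Lv k N (j + 2))) (hq : q ∈ inW H (Lv k N (j + 2)))
    (hl : l ∈ inW H (Lv k N (j + 2)))
    (hv : ∀ a, v a ∈ inW H (Lv k N (j + 2))) {c : k} (h : p - q = c • l) :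
    x (Fin.cons p (Fin.cons q v : Fin (j + 1) → Vec k N)) =
      x (Fin.cons p (Fin.cons l v : Fin (j + 1) → Vec k N)) -
      x (Fin.cons q (Fin.cons l v : Fin (j + 1) → Vec k N)) := by
  set C : Fin (j + 3) → Vec k N :=
    Fin.cons p (Fin.cons q (Fin.cons l v : Fin (j + 1) → Vec k N) : Fin (j + 2) → Vec k N) with hC
  have hC0 : C 0 = p := rfl
  have hC1 : C (0 : Fin (j + 2)).succ = q := rfl
  have hC2 : C (0 : Fin (j + 1)).succ.succ = l := rfl
  have hC3 : ∀ b : Fin j, C b.succ.succ.succ = v b := fun _ => rfl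
  have hmem : ∀ b, C b ∈ inW H (Lv k N (j + 2)) := by
    intro b
    refine Fin.cases hp (fun b => ?_) b
    refine Fin.cases hq (fun b => ?_) b
    refine Fin.cases hl (fun b => ?_) b
    exact hv b
  have hdep : ¬ LinearIndependent k C :=
    not_li_of_rel (a := 0) (b := (0 : Fin (j + 2)).succ) (d := (0 : Fin (j + 1)).succ.succ)
      (c := c) (Fin.succ_ne_zero _).symm (Fin.succ_ne_zero _).symm h
  have hos := hx.os C hmem hdep
  rw [Fin.sum_univ_succ, Fin.sum_univ_succ, Fin.sum_univ_succ, Finset.sum_eq_zero, add_zero] at hos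
  · have e1 : C ∘ (0 : Fin (j + 3)).succAbove =
        Fin.cons q (Fin.cons l v : Fin (j + 1) → Vec k N) := by
      funext b; simp [hC]
    have e2 : C ∘ ((0 : Fin (j + 2)).succ).succAbove =
        Fin.cons p (Fin.cons l v : Fin (j + 1) → Vec k N) := by
      funext b
      refine Fin.cases (by simp [hC]) (fun b => ?_) b
      simp only [Function.comp, Fin.succ_succAbove_succ]
      simp [hC]
    have e3 : C ∘ ((0 : Fin (j + 1)).succ.succ).succAbove =
        Fin.cons p (Fin.cons q v : Fin (j + 1) → Vec k N) := by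
      funext b
      refine Fin.cases ?_ (fun b => ?_) b
      · simp only [Function.comp, Fin.succ_succAbove_zero]
        rfl
      simp only [Function.comp, Fin.succ_succAbove_succ]
      refine Fin.cases ?_ (fun b => ?_) b
      · simp only [Fin.succ_succAbove_zero]
        rfl
      simp only [Fin.succ_succAbove_succ]
      simp [hC]
    rw [e1, e2, e3] at hos
    simp only [Fin.val_zero, pow_zero, one_smul, Fin.val_succ, zero_add, pow_one, neg_smul] at hos
    have h2 : ((-1 : ℤ) ^ (1 + 1)) = 1 := by norm_num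
    rw [h2, one_smul] at hos
    rw [← sub_eq_zero]
    rw [← hos]
    abel
  · intro b _
    have : x (C ∘ (b.succ.succ.succ).succAbove) = 0 := by
      refine hx.dep _ (fun c => hmem _) ?_
      refine not_li_of_rel (a := 0) (b := (0 : Fin (j + 1)).succ) (d := ?_) (c := c) ?_ ?_ ?_
      · exact ⟨2, by have := b.2; omega⟩
      · exact (Fin.succ_ne_zero _).symm
      · simp
      · have hj : 0 < j := lt_of_le_of_lt (Nat.zero_le _) b.2
        obtain ⟨j, rfl⟩ : ∃ j', j = j' + 1 := ⟨j - 1, by omega⟩
        have e : (⟨2, by have := b.2; omega⟩ : Fin (j + 1 + 2)) = (0 : Fin (j + 1)).succ.succ := rfl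
        rw [e]
        simp only [Function.comp, Fin.succ_succAbove_succ, Fin.succ_succAbove_zero]
        exact h
    rw [this, smul_zero]

end Pool.Agent.helper67.ND
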