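import Mathlib
import Pool.Agent.helper67.ND.C3b

/-! The straightening argument. -/

namespace Pool.Agent.helper67.ND

open scoped BigOperators

variable {k K F : Type} [Field k] [Field K] [Field F] [Algebra k K] [Algebra K F] {N : ℕ}
variable {U : Type} [AddCommGroup U] [Module K U]

lemma e0_mem_Lv (j : ℕ) : e0 k N ∈ Lv k N j := by
  intro m hm
  have : m ≠ 0 := by rintro rfl; simp at hm
  simp [e0, this]

/-- `j + 2` vectors of level `≤ j` are dependent. -/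
lemma not_li_Lv {j : ℕ} (hj : j ≤ N) (v : Fin (j + 2) → Vec k N) (hv : ∀ a, v a ∈ Lv k N j) :
    ¬ LinearIndependent k v := by
  intro h
  let T : Lv k N j →ₗ[k] (Fin (j + 1) → k) :=
    (LinearMap.funLeft k k (fun i : Fin (j + 1) => (⟨(i : ℕ), by omega⟩ : Fin (N + 1)))) ∘ₗ
      (Lv k N j).subtype
  have hT : LinearMap.ker T = ⊥ := by
    rw [LinearMap.ker_eq_bot']
    intro x hx
    apply Subtype.ext
    funext m
    by_cases hm : j < (m : ℕ)
    · exact x.2 m hm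
    · have := congrFun hx ⟨m, by omega⟩
      simpa [T, LinearMap.funLeft_apply] using this
  have h1 : LinearIndependent k (fun a => (⟨v a, hv a⟩ : Lv k N j)) := by
    apply LinearIndependent.of_comp (Lv k N j).subtype
    exact h
  have h2 := (h1.map' T hT).fintype_card_le_finrank
  simp at h2

lemma e0_mem_span {j : ℕ} (hj : j ≤ N) (v : Fin (j + 1) → Vec k N) (hv : ∀ a, v a ∈ Lv k N j)
    (h : LinearIndependent k v) : e0 k N ∈ Submodule.span k (Set.range v) := by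
  by_contra hne
  have : LinearIndependent k (Fin.cons (e0 k N) v : Fin (j + 2) → Vec k N) :=
    linearIndependent_finCons.2 ⟨h, hne⟩
  refine not_li_Lv hj _ ?_ this
  intro a
  refine Fin.cases (e0_mem_Lv j) (fun a => ?_) a
  exact hv a

/-- An Orlik-Solomon function at level `j + 1` vanishes on tuples of level `≤ j`. -/
lemma OSfun.eq_zero_of_Lv {H : Finset (Vec k N)} {j : ℕ} (hj : j ≤ N)
    {x : (Fin (j + 1) → Vec k N) → U}
    (hx : OSfun (K := K) H (j + 1) x) (v : Fin (j + 1) → Vec k N)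
    (hv : ∀ a, v a ∈ inW H (Lv k N j)) : x v = 0 := by
  have hv' : ∀ a, v a ∈ inW H (Lv k N (j + 1)) := fun a =>
    mem_inW.2 ⟨(mem_inW.1 (hv a)).1, Lv_mono (Nat.le_succ j) (mem_inW.1 (hv a)).2⟩
  by_cases h : LinearIndependent k v
  · exact hx.one v hv' (e0_mem_span hj v (fun a => (mem_inW.1 (hv a)).2) h)
  · exact hx.dep v hv' h

lemma Top.mem_inW {H : Finset (Vec k N)} {j : ℕ} (hj : j + 1 < N + 1)
    (w : Top H ⟨j + 1, hj⟩) : w.1 ∈ inW H (Lv k N (j + 1)) :=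
  ND.mem_inW.2 ⟨w.2.1, w.2.2.mem_Lv le_rfl⟩

/-- the difference of two distinct top elements -/
lemma Top.diff {H : Finset (Vec k N)} (hH : Tower H) {j : ℕ} (hj : j + 1 < N + 1)
    {p q : Vec k N} (hp : p ∈ H) (hp' : IsLvl p ⟨j + 1, hj⟩) (hq : q ∈ H)
    (hq' : IsLvl q ⟨j + 1, hj⟩) (hpq : p ≠ q) :
    ∃ l ∈ inW H (Lv k N j), ∃ c : k, c ≠ 0 ∧ p - q = c • l := by
  obtain ⟨l, hl, c, hc, h⟩ := hH.closed p hp q hq _ hp' hq' hpq
  refine ⟨l, ND.mem_inW.2 ⟨hl, ?_⟩, c, hc, h⟩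
  have hl2 : l = c⁻¹ • (p - q) := by rw [h, smul_smul, inv_mul_cancel₀ hc, one_smul]
  rw [hl2]
  refine Submodule.smul_mem _ _ ?_
  intro m hm
  rcases Nat.lt_or_ge (j + 1) (m : ℕ) with h1 | h1
  · rw [Pi.sub_apply, hp'.2 m h1, hq'.2 m h1, sub_zero]
  · have : m = ⟨j + 1, hj⟩ := Fin.ext (le_antisymm h1 hm)
    rw [Pi.sub_apply, this, hp'.1, hq'.1, sub_self]

open Classical in
/-- number of entries of level exactly `m` -/
noncomputable def cnt (m : Fin (N + 1)) {j : ℕ} (v : Fin j → Vec k N) : ℕ :=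
  ∑ a, if IsLvl (v a) m then 1 else 0

lemma cnt_cons (m : Fin (N + 1)) {j : ℕ} (p : Vec k N) (v : Fin j → Vec k N) :
    cnt m (Fin.cons p v : Fin (j + 1) → Vec k N) =
      (open Classical in if IsLvl p m then 1 else 0) + cnt m v := by
  unfold cnt
  rw [Fin.sum_univ_succ]
  rfl

lemma cnt_front (m : Fin (N + 1)) {j : ℕ} (v : Fin (j + 1) → Vec k N) (a : Fin (j + 1)) :
    cnt m (Fin.cons (v a) (v ∘ a.succAbove) : Fin (j + 1) → Vec k N) = cnt m v := by
  rw [cnt_cons]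
  unfold cnt
  rw [Fin.sum_univ_succAbove _ a]
  rfl

/-- (straightening) -/
lemma OSfun.eq_zero_of {H : Finset (Vec k N)} (hH : Tower H) {j : ℕ} (hj : j + 1 < N + 1)
    {x : (Fin (j + 1) → Vec k N) → U}
    (hx : OSfun (K := K) H (j + 1) x)
    (h1 : ∀ w : Top H ⟨j + 1, hj⟩, ∀ v : Fin j → Vec k N, (∀ a, v a ∈ inW H (Lv k N j)) →
      x (Fin.cons w.1 v) = 0) :
    ∀ v : Fin (j + 1) → Vec k N, (∀ a, v a ∈ inW H (Lv k N (j + 1))) → x v = 0 := by
  suffices h : ∀ n : ℕ, ∀ v : Fin (j + 1) → Vec k N, cnt ⟨j + 1, hj⟩ v = n →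
      (∀ a, v a ∈ inW H (Lv k N (j + 1))) → x v = 0 from fun v hv => h _ v rfl hv
  intro n
  induction n using Nat.strong_induction_on with
  | _ n ih =>
  intro v hn hv
  by_cases hall : ∀ a, v a ∈ inW H (Lv k N j)
  · exact hx.eq_zero_of_Lv (by omega) v hall
  push Not at hall
  obtain ⟨a, ha⟩ := hall
  -- the entry `v a` is of top level
  have ha' := (mem_inW_succ hH hj).1 (hv a)
  have hatop : v a ∈ H ∧ IsLvl (v a) ⟨j + 1, hj⟩ := by tauto
  rw [hx.front v hv a]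
  -- generic statement for tuples `cons w v'`
  suffices h2 : ∀ (w : Vec k N) (v' : Fin j → Vec k N), w ∈ H → IsLvl w ⟨j + 1, hj⟩ →
      (∀ b, v' b ∈ inW H (Lv k N (j + 1))) →
      cnt ⟨j + 1, hj⟩ (Fin.cons w v' : Fin (j + 1) → Vec k N) = n → x (Fin.cons w v') = 0 by
    rw [h2 (v a) (v ∘ a.succAbove) hatop.1 hatop.2 (fun b => hv _)
      ((cnt_front _ v a).trans hn), smul_zero]
  intro w v' hw hwl hv' hcnt
  by_cases hall' : ∀ b, v' b ∈ inW H (Lv k N j)
  · exact h1 ⟨w, hw, hwl⟩ v' hall'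
  push Not at hall'
  obtain ⟨b, hb⟩ := hall'
  have hb' := (mem_inW_succ hH hj).1 (hv' b)
  have hbtop : v' b ∈ H ∧ IsLvl (v' b) ⟨j + 1, hj⟩ := by tauto
  obtain ⟨j, rfl⟩ : ∃ j', j = j' + 1 := ⟨j - 1, by have := b.2; omega⟩
  set w' := v' b with hw'
  have hwmem : w ∈ inW H (Lv k N (j + 2)) := mem_inW.2 ⟨hw, hwl.mem_Lv le_rfl⟩
  have hw'mem : w' ∈ inW H (Lv k N (j + 2)) := hv' b
  have hmem : ∀ a, (Fin.cons w v' : Fin (j + 2) → Vec k N) a ∈ inW H (Lv k N (j + 2)) := by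
    intro a
    refine Fin.cases hwmem (fun a => ?_) a
    exact hv' a
  -- move `w'` to the front
  have hfr := hx.front _ hmem b.succ
  have e1 : (Fin.cons w v' : Fin (j + 2) → Vec k N) b.succ = w' := by simp [hw']
  have e2 : (Fin.cons w v' : Fin (j + 2) → Vec k N) ∘ b.succ.succAbove =
      Fin.cons w (v' ∘ b.succAbove) := by
    funext c
    refine Fin.cases ?_ (fun c => ?_) c
    · simp
    · simp [Fin.succ_succAbove_succ]
  rw [e1, e2] at hfr
  rw [hfr]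
  set v'' := v' ∘ b.succAbove with hv''
  have hv''mem : ∀ c, v'' c ∈ inW H (Lv k N (j + 2)) := fun c => hv' _
  have hcnt2 : cnt ⟨j + 1 + 1, hj⟩
      (Fin.cons w (Fin.cons w' v'' : Fin (j + 1) → Vec k N) : Fin (j + 2) → Vec k N) = n := by
    have h3 := cnt_front ⟨j + 1 + 1, hj⟩ v' b
    rw [cnt_cons] at h3
    rw [← hcnt, cnt_cons, cnt_cons, cnt_cons, ← h3]
  by_cases heq : w' = w
  · rw [hx.dep _ _ (not_li_of_eq (a := 0) (b := (0 : Fin (j + 1)).succ)
      (Fin.succ_ne_zero _).symm ?_), smul_zero]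
    · intro c
      refine Fin.cases hw'mem (fun c => ?_) c
      refine Fin.cases hwmem (fun c => ?_) c
      exact hv''mem c
    · simp [heq]
  · obtain ⟨l, hl, c, hc, hdiff⟩ := Top.diff hH hj hbtop.1 hbtop.2 hw hwl heq
    have hlmem : l ∈ inW H (Lv k N (j + 2)) :=
      mem_inW.2 ⟨(mem_inW.1 hl).1, Lv_mono (Nat.le_succ _) (mem_inW.1 hl).2⟩
    have hlnot : ¬ IsLvl l ⟨j + 1 + 1, hj⟩ := not_isLvl_of_mem_Lv hj (mem_inW.1 hl).2
    rw [hx.three w' w l v'' hw'mem hwmem hlmem hv''mem hdiff]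
    rw [cnt_cons, cnt_cons, if_pos hwl, if_pos hbtop.2] at hcnt2
    have hA : x (Fin.cons w' (Fin.cons l v'' : Fin (j + 1) → Vec k N)) = 0 := by
      refine ih (1 + cnt ⟨j + 1 + 1, hj⟩ v'') (by omega) _ ?_ ?_
      · rw [cnt_cons, cnt_cons, if_pos hbtop.2, if_neg hlnot, zero_add]
      · intro c
        refine Fin.cases hw'mem (fun c => ?_) c
        refine Fin.cases hlmem (fun c => ?_) c
        exact hv''mem c
    have hB : x (Fin.cons w (Fin.cons l v'' : Fin (j + 1) → Vec k N)) = 0 := by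
      refine ih (1 + cnt ⟨j + 1 + 1, hj⟩ v'') (by omega) _ ?_ ?_
      · rw [cnt_cons, cnt_cons, if_pos hwl, if_neg hlnot, zero_add]
      · intro c
        refine Fin.cases hwmem (fun c => ?_) c
        refine Fin.cases hlmem (fun c => ?_) c
        exact hv''mem c
    rw [hA, hB, sub_zero, smul_zero]

end Pool.Agent.helper67.ND
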