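import Mathlib
import Pool.Agent.helper67.ND.C3c

/-! The logarithmic forms satisfy the Orlik-Solomon relations. -/

namespace Pool.Agent.helper67.ND

open scoped BigOperators

variable {k K F : Type} [Field k] [Field K] [Field F] [Algebra k K] [Algebra K F] {N : ℕ}

lemma ldet_eq_zero {j : ℕ} (hj : j ≤ N) (v : Fin j → Vec k N) (g : Fin j → k) (hg : g ≠ 0)
    (h : ∀ i : Fin j, (∑ a, g a • v a) ⟨j - (i : ℕ), by omega⟩ = 0) : ldet hj v = 0 := by
  unfold ldet
  rw [← Matrix.exists_vecMul_eq_zero_iff]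
  refine ⟨g, hg, ?_⟩
  funext i
  have := h i
  rw [Finset.sum_apply] at this
  simpa [Matrix.vecMul, dotProduct] using this

lemma ldet_eq_zero_of_dep {j : ℕ} (hj : j ≤ N) (v : Fin j → Vec k N)
    (h : ¬ LinearIndependent k v) : ldet hj v = 0 := by
  rw [Fintype.linearIndependent_iff] at h
  push Not at h
  obtain ⟨g, hg, i, hi⟩ := h
  refine ldet_eq_zero hj v g (fun h0 => hi (by rw [h0]; rfl)) ?_
  intro i
  rw [hg]; rfl

lemma ldet_eq_zero_of_e0 {j : ℕ} (hj : j ≤ N) (v : Fin j → Vec k N)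
    (h : e0 k N ∈ Submodule.span k (Set.range v)) : ldet hj v = 0 := by
  rw [Submodule.mem_span_range_iff_exists_fun] at h
  obtain ⟨g, hg⟩ := h
  refine ldet_eq_zero hj v g ?_ ?_
  · rintro rfl
    have : (e0 k N) 0 = 0 := by rw [← hg]; simp
    simp [e0] at this
  · intro i
    rw [hg]
    have : (⟨j - (i : ℕ), by omega⟩ : Fin (N + 1)) ≠ 0 := by
      have := i.2
      simp [Fin.ext_iff]; omega
    simp [e0, this]

lemma Env.cst_ldet (En : Env K F N) {j : ℕ} (hj : j ≤ N) (v : Fin j → Vec k N) :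
    En.cst (ldet hj v) =
      Matrix.det (Matrix.of fun (a i : Fin j) => En.cst (v a ⟨j - (i : ℕ), by omega⟩)) := by
  unfold ldet
  rw [RingHom.map_det]
  rfl

/-- general Laplace identity -/
lemma logf_laplace (En : Env K F N) {j : ℕ} (hj : j ≤ N) (C : Fin (j + 1) → Vec k N)
    (hC0 : ∀ a, C a ≠ 0) :
    ∑ i : Fin (j + 1), ((-1 : ℤ) ^ (i : ℕ)) • En.logf hj (C ∘ i.succAbove) =
      (∏ a, (En.aff (C a))⁻¹) * Matrix.det (Matrix.of fun (a i : Fin (j + 1)) =>
        (Fin.cases (En.aff (C a)) (fun i : Fin j => En.cst (C a ⟨j - (i : ℕ), by omega⟩)) i : F)) := by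
  rw [Matrix.det_succ_column_zero, Finset.mul_sum]
  refine Finset.sum_congr rfl fun i _ => ?_
  unfold Env.logf
  have h1 : ∏ a, (En.aff (C a))⁻¹ = (En.aff (C i))⁻¹ * ∏ b, (En.aff (C (i.succAbove b)))⁻¹ :=
    Fin.prod_univ_succAbove _ i
  have h2 : algebraMap K F (algebraMap k K (ldet hj (C ∘ i.succAbove))) =
      En.cst (ldet hj (C ∘ i.succAbove)) := rfl
  rw [h1, h2, En.cst_ldet]
  have h3 : (Matrix.of fun (a i : Fin (j + 1)) =>
        (Fin.cases (En.aff (C a)) (fun i : Fin j => En.cst (C a ⟨j - (i : ℕ), by omega⟩)) i : F)).submatrix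
        i.succAbove Fin.succ =
      Matrix.of fun (a b : Fin j) => En.cst ((C ∘ i.succAbove) a ⟨j - (b : ℕ), by omega⟩) := by
    ext a b
    simp
  rw [h3]
  have h4 := En.aff_ne_zero (hC0 i)
  simp only [Matrix.of_apply, Fin.cases_zero, Function.comp]
  simp only [zsmul_eq_mul, Int.cast_pow, Int.cast_neg, Int.cast_one]
  field_simp

lemma logf_os (En : Env K F N) {j : ℕ} (hj : j ≤ N) (C : Fin (j + 1) → Vec k N)
    (hC0 : ∀ a, C a ≠ 0) (hC : ¬ LinearIndependent k C) :
    ∑ i : Fin (j + 1), ((-1 : ℤ) ^ (i : ℕ)) • En.logf hj (C ∘ i.succAbove) = 0 := by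
  rw [logf_laplace En hj C hC0]
  convert mul_zero _
  rw [← Matrix.exists_vecMul_eq_zero_iff]
  rw [Fintype.linearIndependent_iff] at hC
  push Not at hC
  obtain ⟨g, hg, i, hi⟩ := hC
  refine ⟨fun a => En.cst (g a), ?_, ?_⟩
  · intro h0
    have := congrFun h0 i
    exact hi ((map_eq_zero _).1 this)
  · funext b
    refine Fin.cases ?_ (fun b => ?_) b
    · have := congrArg En.aff hg
      rw [En.aff_sum] at this
      simp only [En.aff_smul, En.aff_zero] at this
      simpa [Matrix.vecMul, dotProduct] using this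
    · have := congrFun hg ⟨j - (b : ℕ), by omega⟩
      rw [Finset.sum_apply] at this
      have := congrArg En.cst this
      rw [map_sum] at this
      simpa [Matrix.vecMul, dotProduct] using this

variable {U : Type} [AddCommGroup U] [Module K U]

lemma OSfun_logf (En : Env K F N) {H : Finset (Vec k N)} (hH : Tower H) {j : ℕ} (hj : j ≤ N)
    (L : F →ₗ[K] U) : OSfun (K := K) H j (fun v => L (En.logf hj v)) where
  dep v _ h := by
    have : En.logf hj v = 0 := by
      unfold Env.logf; rw [ldet_eq_zero_of_dep hj v h]; simp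
    simp [this]
  one v _ h := by
    have : En.logf hj v = 0 := by
      unfold Env.logf; rw [ldet_eq_zero_of_e0 hj v h]; simp
    simp [this]
  os C hC h := by
    have := logf_os En hj C (fun a => hH.ne_zero (mem_inW.1 (hC a)).1) h
    simp only [← map_zsmul, ← map_sum]
    rw [this, map_zero]

lemma OSfun.sub {H : Finset (Vec k N)} {j : ℕ} {x y : (Fin j → Vec k N) → U}
    (hx : OSfun (K := K) H j x) (hy : OSfun (K := K) H j y) :
    OSfun (K := K) H j (fun v => x v - y v) where
  dep v hv h := by simp [hx.dep v hv h, hy.dep v hv h]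
  one v hv h := by simp [hx.one v hv h, hy.one v hv h]
  os C hC h := by
    simp only [smul_sub, Finset.sum_sub_distrib]
    rw [hx.os C hC h, hy.os C hC h, sub_zero]

/-- logarithmic form of a tuple with first entry of top level -/
lemma logf_cons (En : Env K F N) {j : ℕ} (hj : j + 1 ≤ N) (w : Vec k N)
    (hw : IsLvl w ⟨j + 1, by omega⟩) (v : Fin j → Vec k N) (hv : ∀ a, v a ∈ Lv k N j) :
    En.logf hj (Fin.cons w v : Fin (j + 1) → Vec k N) =
      En.logf (by omega : j ≤ N) v * (En.aff w)⁻¹ := by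
  unfold Env.logf
  have h1 : ldet hj (Fin.cons w v : Fin (j + 1) → Vec k N) = ldet (by omega : j ≤ N) v := by
    unfold ldet
    rw [Matrix.det_succ_column_zero, Fin.sum_univ_succ, Finset.sum_eq_zero, add_zero]
    · have h2 : w ⟨j + 1, by omega⟩ = 1 := hw.1
      simp only [Matrix.of_apply, Fin.val_zero, pow_zero, one_mul, Fin.cons_zero]
      have h3 : (⟨j + 1 - 0, by omega⟩ : Fin (N + 1)) = ⟨j + 1, by omega⟩ := rfl
      rw [h3, h2, one_mul]
      congr 1
      ext a b
      simp [Matrix.submatrix]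
    · intro a _
      have h2 : v a ⟨j + 1, by omega⟩ = 0 := hv a _ (Nat.lt_succ_self j)
      simp only [Matrix.of_apply, Fin.cons_succ, Fin.val_zero]
      have h3 : (⟨j + 1 - 0, by omega⟩ : Fin (N + 1)) = ⟨j + 1, by omega⟩ := rfl
      rw [h3, h2]; simp
  rw [h1, Fin.prod_univ_succ]
  simp only [Fin.cons_zero, Fin.cons_succ]
  ring

lemma logf_mem_ringAt (En : Env K F N) {H : Finset (Vec k N)} {j : ℕ} (hj : j ≤ N)
    (v : Fin j → Vec k N) (hv : ∀ a, v a ∈ inW H (Lv k N j)) :
    En.logf hj v ∈ ringAt En H j := by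
  unfold Env.logf
  exact Subalgebra.mul_mem _ (Subalgebra.algebraMap_mem _ _)
    (Subalgebra.prod_mem _ fun a _ => inv_mem_ringAt En H (hv a))

end Pool.Agent.helper67.ND
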