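import Mathlib
import Pool.Agent.helper67.ND.C3d


/-! The inductive step of the tower. -/

namespace Pool.Agent.helper67.ND

open scoped BigOperators

variable {k K F : Type} [Field k] [Field K] [Field F] [Algebra k K] [Algebra K F] {N : ℕ}
variable {U : Type} [AddCommGroup U] [Module K U]

lemma map_cst (En : Env K F N) (Q : F →ₗ[K] U) (c : k) (f : F) :
    Q (En.cst c * f) = (algebraMap k K c) • Q f := by
  rw [← map_smul, Algebra.smul_def]; rfl

lemma key_id (En : Env K F N) {v w l : Vec k N} {c : k} (h : v - w = c • l)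
    (hv : v ≠ 0) (hw : w ≠ 0) (hl : l ≠ 0) (i : Fin N) :
    (En.cst (w i.succ) - En.cst (v i.succ)) * ((En.aff v)⁻¹ * (En.aff w)⁻¹) =
      En.cst (l i.succ) * ((En.aff l)⁻¹ * (En.aff v)⁻¹ - (En.aff l)⁻¹ * (En.aff w)⁻¹) := by
  have h1 : En.aff v - En.aff w = En.cst c * En.aff l := by
    rw [← En.aff_sub, h, En.aff_smul]
  have h2 : En.cst (w i.succ) - En.cst (v i.succ) = - (En.cst c * En.cst (l i.succ)) := by
    have := congrArg En.cst (congrFun h i.succ)
    simp only [Pi.sub_apply, Pi.smul_apply, smul_eq_mul, map_sub, map_mul] at this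
    rw [← this]; ring
  have ha := En.aff_ne_zero hv
  have hb := En.aff_ne_zero hw
  have ht := En.aff_ne_zero hl
  rw [h2]
  field_simp
  have h3 : En.aff w - En.aff v = - (En.cst c * En.aff l) := by rw [← h1]; ring
  linear_combination (-(En.cst (l i.succ))) * h3

lemma Tower.dir_unique {H : Finset (Vec k N)} (hH : Tower H) {l l' : Vec k N} (hl : l ∈ H)
    (hl' : l' ∈ H) {c c' : k} (hc : c ≠ 0) (hc' : c' ≠ 0) (h : c • l = c' • l') : l = l' := by
  obtain ⟨m, hm⟩ := hH.lvl l hl
  obtain ⟨m', hm'⟩ := hH.lvl l' hl'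
  have hmm : m = m' := by
    rcases lt_trichotomy m m' with h1 | h1 | h1
    · have := congrFun h m'
      simp only [Pi.smul_apply, smul_eq_mul, hm.2 m' h1, hm'.1, mul_zero, mul_one] at this
      exact absurd this.symm hc'
    · exact h1
    · have := congrFun h m
      simp only [Pi.smul_apply, smul_eq_mul, hm'.2 m h1, hm.1, mul_zero, mul_one] at this
      exact absurd this hc
  subst hmm
  have := congrFun h m
  simp only [Pi.smul_apply, smul_eq_mul, hm.1, hm'.1, mul_one] at this
  rw [this] at h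
  exact smul_right_injective _ hc' h

open Classical in
/-- reindexing of double sums -/
lemma sum_dir {H : Finset (Vec k N)} (hH : Tower H) {j : ℕ} (hj : j + 1 < N + 1)
    {M : Type} [AddCommMonoid M] (v : Top H ⟨j + 1, hj⟩)
    (f : Vec k N → Top H ⟨j + 1, hj⟩ → M) (g : Top H ⟨j + 1, hj⟩ → M) (hg : g v = 0)
    (hfg : ∀ w, w ≠ v → ∀ l ∈ inW H (Lv k N j), ∀ c : k, c ≠ 0 → v.1 - w.1 = c • l →
      f l w = g w) :
    ∑ l ∈ inW H (Lv k N j), ∑ w : Top H ⟨j + 1, hj⟩,
      (if (∃ c : k, c ≠ 0 ∧ v.1 - w.1 = c • l) then f l w else 0) = ∑ w, g w := by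
  rw [Finset.sum_comm]
  refine Finset.sum_congr rfl fun w _ => ?_
  by_cases hw : w = v
  · subst hw
    rw [hg]
    refine Finset.sum_eq_zero fun l hl => if_neg ?_
    rintro ⟨c, hc, h⟩
    rw [sub_self] at h
    have := smul_eq_zero.1 h.symm
    rcases this with h1 | h1
    · exact hc h1
    · exact hH.ne_zero (mem_inW.1 hl).1 h1
  · obtain ⟨l, hl, c, hc, h⟩ := Top.diff hH hj v.2.1 v.2.2 w.2.1 w.2.2
      (fun h => hw (Subtype.ext h.symm))
    rw [Finset.sum_eq_single l]
    · rw [if_pos ⟨c, hc, h⟩, hfg w hw l hl c hc h]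
    · intro l' hl' hne
      refine if_neg ?_
      rintro ⟨c', hc', h'⟩
      exact hne (hH.dir_unique (mem_inW.1 hl').1 (mem_inW.1 hl).1 hc' hc (h'.symm.trans h))
    · intro h'; exact absurd hl h'

/-- the elements of `H` of level `≤ j + 1` in the plane spanned by a top element `v` and a
lower element `l`. -/
lemma sum_plane {H : Finset (Vec k N)} (hH : Tower H) {j : ℕ} (hj : j + 1 < N + 1)
    {M : Type} [AddCommMonoid M] (B : Vec k N → M) (v : Top H ⟨j + 1, hj⟩) (l : Vec k N)
    (hl : l ∈ inW H (Lv k N j)) :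
    ∑ w ∈ inW H (Lv k N (j + 1) ⊓ Submodule.span k {v.1, l}), B w =
      B l + (B v.1 + ∑ w : Top H ⟨j + 1, hj⟩,
        open Classical in if (∃ c : k, c ≠ 0 ∧ v.1 - w.1 = c • l) then B w.1 else 0) := by
  classical
  have h0 : inW H (Lv k N (j + 1) ⊓ Submodule.span k {v.1, l}) =
      (inW H (Lv k N (j + 1))).filter (fun w => w ∈ Submodule.span k {v.1, l}) := by
    ext w
    rw [Finset.mem_filter, mem_inW, mem_inW, Submodule.mem_inf, and_assoc]
  rw [h0, Finset.sum_filter, sum_inW_succ hH hj]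
  have hlH := (mem_inW.1 hl).1
  have hlL := (mem_inW.1 hl).2
  congr 1
  · rw [Finset.sum_eq_single l]
    · rw [if_pos]
      exact Submodule.subset_span (by simp)
    · intro w hw hne
      refine if_neg ?_
      intro hmem
      rw [Submodule.mem_span_pair] at hmem
      obtain ⟨a, b, hab⟩ := hmem
      have h1 := congrFun hab ⟨j + 1, hj⟩
      have h2 : w ⟨j + 1, hj⟩ = 0 := (mem_inW.1 hw).2 _ (Nat.lt_succ_self j)
      have h3 : l ⟨j + 1, hj⟩ = 0 := hlL _ (Nat.lt_succ_self j)
      simp only [Pi.add_apply, Pi.smul_apply, smul_eq_mul, v.2.2.1, h2, h3, mul_one, mul_zero,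
        add_zero] at h1
      rw [h1, zero_smul, zero_add] at hab
      have hb : b ≠ 0 := by
        rintro rfl
        rw [zero_smul] at hab
        exact hH.ne_zero (mem_inW.1 hw).1 hab.symm
      exact hne (hH.dir_unique (mem_inW.1 hw).1 hlH one_ne_zero hb (by rw [one_smul, hab]))
    · intro h; exact absurd hl h
  · have hsplit : B v.1 + ∑ w : Top H ⟨j + 1, hj⟩,
        (if (∃ c : k, c ≠ 0 ∧ v.1 - w.1 = c • l) then B w.1 else 0) =
        ∑ w : Top H ⟨j + 1, hj⟩, ((if w = v then B w.1 else 0) +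
          (if (∃ c : k, c ≠ 0 ∧ v.1 - w.1 = c • l) then B w.1 else 0)) := by
      rw [Finset.sum_add_distrib]
      congr 1
      rw [Finset.sum_ite_eq' Finset.univ v (fun w => B w.1)]
      simp
    rw [hsplit]
    refine Finset.sum_congr rfl fun w _ => ?_
    by_cases hw : w = v
    · subst hw
      have hmem : w.1 ∈ Submodule.span k ({w.1, l} : Set (Vec k N)) :=
        Submodule.subset_span (by simp)
      rw [if_pos hmem, if_pos rfl, if_neg, add_zero]
      rintro ⟨c, hc, h⟩
      rw [sub_self] at h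
      rcases smul_eq_zero.1 h.symm with h1 | h1
      · exact hc h1
      · exact hH.ne_zero hlH h1
    · rw [if_neg hw, zero_add]
      by_cases hex : ∃ c : k, c ≠ 0 ∧ v.1 - w.1 = c • l
      · rw [if_pos hex, if_pos]
        obtain ⟨c, hc, h⟩ := hex
        rw [Submodule.mem_span_pair]
        refine ⟨1, -c, ?_⟩
        rw [neg_smul, ← h, one_smul]; abel
      · rw [if_neg hex, if_neg]
        intro hmem
        apply hex
        rw [Submodule.mem_span_pair] at hmem
        obtain ⟨a, b, hab⟩ := hmem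
        have h1 := congrFun hab ⟨j + 1, hj⟩
        have h3 : l ⟨j + 1, hj⟩ = 0 := hlL _ (Nat.lt_succ_self j)
        simp only [Pi.add_apply, Pi.smul_apply, smul_eq_mul, v.2.2.1, w.2.2.1, h3, mul_one,
          mul_zero, add_zero] at h1
        rw [h1, one_smul] at hab
        refine ⟨-b, ?_, ?_⟩
        · intro hb
          rw [neg_eq_zero] at hb
          rw [hb, zero_smul, add_zero] at hab
          exact hw (Subtype.ext hab.symm)
        · rw [← hab, neg_smul]; abel

open Classical in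
/-- the curvature term vanishes -/
lemma curvature_zero [CharZero K] (En : Env K F N) {H : Finset (Vec k N)} (hH : Tower H) {j : ℕ}
    (hj : j + 1 < N + 1) (B : Vec k N → Module.End K U) (hB : Good H (j + 1) B)
    (Q : F →ₗ[K] U) (i : Fin N) :
    ∑ v : Top H ⟨j + 1, hj⟩, ∑ l ∈ inW H (Lv k N (j + 1)),
      (algebraMap k K (l i.succ)) • ((B v.1 * B l - B l * B v.1)
        (Q ((En.aff l)⁻¹ * (En.aff v.1)⁻¹))) = 0 := by
  set T := Top H ⟨j + 1, hj⟩ with hT
  -- abbreviations
  set a : T → T → Module.End K U := fun v w => B v.1 * B w.1 - B w.1 * B v.1 with ha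
  set p : Vec k N → T → U := fun l v =>
    (algebraMap k K (l i.succ)) • Q ((En.aff l)⁻¹ * (En.aff v.1)⁻¹) with hp
  have ha_anti : ∀ v w, a v w = - a w v := fun v w => by simp [ha]
  have ha_self : ∀ v, a v v = 0 := fun v => by simp [ha]
  -- first rewrite
  have h1 : ∀ v : T, ∑ l ∈ inW H (Lv k N (j + 1)),
      (algebraMap k K (l i.succ)) • ((B v.1 * B l - B l * B v.1)
        (Q ((En.aff l)⁻¹ * (En.aff v.1)⁻¹))) =
      ∑ l ∈ inW H (Lv k N j), (B v.1 * B l - B l * B v.1) (p l v) +
      ∑ w : T, (a v w) (p w.1 v) := by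
    intro v
    rw [sum_inW_succ hH hj]
    simp only [hp, ha, map_smul]
    rfl
  rw [Finset.sum_congr rfl fun v _ => h1 v, Finset.sum_add_distrib]
  -- second part
  set X : U := ∑ v : T, ∑ w : T, (a v w) (p w.1 v) with hX
  -- the symmetric function q
  have hq : ∀ v w : T, Q ((En.aff w.1)⁻¹ * (En.aff v.1)⁻¹) = Q ((En.aff v.1)⁻¹ * (En.aff w.1)⁻¹) :=
    fun v w => by rw [mul_comm]
  have hX2 : X = ∑ v : T, ∑ w : T, - (a v w)
      ((algebraMap k K (v.1 i.succ)) • Q ((En.aff v.1)⁻¹ * (En.aff w.1)⁻¹)) := by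
    rw [hX, Finset.sum_comm]
    refine Finset.sum_congr rfl fun v _ => Finset.sum_congr rfl fun w _ => ?_
    rw [ha_anti w v, LinearMap.neg_apply]
  have hXX : X + X = ∑ v : T, ∑ w : T, (a v w)
      (((algebraMap k K (w.1 i.succ)) - (algebraMap k K (v.1 i.succ))) •
        Q ((En.aff v.1)⁻¹ * (En.aff w.1)⁻¹)) := by
    conv_lhs => rw [hX2]
    rw [← hX2]
    nth_rewrite 1 [hX]
    rw [hX2, ← Finset.sum_add_distrib]
    refine Finset.sum_congr rfl fun v _ => ?_
    rw [← Finset.sum_add_distrib]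
    refine Finset.sum_congr rfl fun w _ => ?_
    rw [sub_smul, map_sub, sub_eq_add_neg, hp]
    simp only [hq v w]
  -- the function r(v,w) = p(l0(v,w), v)
  have hdir : ∀ v w : T, ∃ l : Vec k N, v ≠ w → l ∈ inW H (Lv k N j) ∧
      ∃ c : k, c ≠ 0 ∧ v.1 - w.1 = c • l := by
    intro v w
    by_cases h : v = w
    · exact ⟨0, fun h' => absurd h h'⟩
    · obtain ⟨l, hl, c, hc, h'⟩ := Top.diff hH hj v.2.1 v.2.2 w.2.1 w.2.2
        (fun h' => h (Subtype.ext h'))
      exact ⟨l, fun _ => ⟨hl, c, hc, h'⟩⟩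
  choose dir hdir using hdir
  have hdir_symm : ∀ v w : T, v ≠ w → dir v w = dir w v := by
    intro v w h
    obtain ⟨h1, c, hc, h2⟩ := hdir v w h
    obtain ⟨h3, c', hc', h4⟩ := hdir w v (Ne.symm h)
    refine hH.dir_unique (mem_inW.1 h1).1 (mem_inW.1 h3).1 hc (neg_ne_zero.2 hc') ?_
    rw [← h2, neg_smul, ← h4]; abel
  set r : T → T → U := fun v w => if v = w then 0 else p (dir v w) v with hr
  have hXX2 : X + X = ∑ v : T, ∑ w : T, (a v w) (r v w - r w v) := by
    rw [hXX]
    refine Finset.sum_congr rfl fun v _ => Finset.sum_congr rfl fun w _ => ?_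
    by_cases h : v = w
    · subst h; rw [ha_self]; simp
    · congr 1
      obtain ⟨h1, c, hc, h2⟩ := hdir v w h
      have hid := key_id En h2 (hH.ne_zero v.2.1) (hH.ne_zero w.2.1)
        (hH.ne_zero (mem_inW.1 h1).1) i
      have := congrArg Q hid
      rw [sub_mul, map_sub, map_cst, map_cst, mul_sub, map_sub, map_cst, map_cst] at this
      simp only [hr, if_neg h, if_neg (Ne.symm h), hp, ← hdir_symm v w h]
      rw [sub_smul, this]
  have hX3 : X = ∑ v : T, ∑ w : T, (a v w) (r v w) := by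
    have h3 : ∑ v : T, ∑ w : T, (a v w) (r w v) = - ∑ v : T, ∑ w : T, (a v w) (r v w) := by
      rw [Finset.sum_comm, ← Finset.sum_neg_distrib]
      refine Finset.sum_congr rfl fun v _ => ?_
      rw [← Finset.sum_neg_distrib]
      refine Finset.sum_congr rfl fun w _ => ?_
      rw [ha_anti w v, LinearMap.neg_apply]
    have h4 : X + X = (∑ v : T, ∑ w : T, (a v w) (r v w)) + ∑ v : T, ∑ w : T, (a v w) (r v w) := by
      rw [hXX2]
      simp only [map_sub, Finset.sum_sub_distrib]
      rw [h3, sub_neg_eq_add]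
    have h5 : (2 : K) • X = (2 : K) • ∑ v : T, ∑ w : T, (a v w) (r v w) := by
      rw [two_smul, two_smul]; exact h4
    exact smul_right_injective U (two_ne_zero) h5
  rw [hX3, ← Finset.sum_add_distrib]
  refine Finset.sum_eq_zero fun v _ => ?_
  -- reindex the sum over w
  have hre := sum_dir hH hj v (fun l w => (a v w) (p l v)) (fun w => (a v w) (r v w))
    (by simp [ha_self]) (by
      intro w hw l hl c hc h
      simp only [hr, if_neg (Ne.symm hw)]
      obtain ⟨h1, c', hc', h2⟩ := hdir v w (Ne.symm hw)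
      rw [hH.dir_unique (mem_inW.1 hl).1 (mem_inW.1 h1).1 hc hc' (h.symm.trans h2)])
  rw [← hre, ← Finset.sum_add_distrib]
  refine Finset.sum_eq_zero fun l hl => ?_
  have hcomm := hB.comm (Submodule.span k {v.1, l}) v.1 (Top.mem_inW hj v)
    (Submodule.subset_span (by simp))
  rw [sum_plane hH hj B v l hl] at hcomm
  have hc2 := hcomm.eq
  rw [mul_add, mul_add, add_mul, add_mul, Finset.mul_sum, Finset.sum_mul] at hc2
  have hc3 := congrArg (fun f : Module.End K U => f (p l v)) hc2
  simp only [LinearMap.add_apply, LinearMap.sum_apply] at hc3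
  rw [LinearMap.sub_apply]
  have h6 : ∀ w : T, (if (∃ c : k, c ≠ 0 ∧ v.1 - w.1 = c • l) then (a v w) (p l v) else 0) =
      (B v.1 * (if (∃ c : k, c ≠ 0 ∧ v.1 - w.1 = c • l) then B w.1 else 0)) (p l v) -
      ((if (∃ c : k, c ≠ 0 ∧ v.1 - w.1 = c • l) then B w.1 else 0) * B v.1) (p l v) := by
    intro w
    split_ifs
    · simp [ha]
    · simp
  rw [Finset.sum_congr rfl fun w _ => h6 w, Finset.sum_sub_distrib]
  rw [← sub_eq_zero] at hc3
  rw [← hc3]
  abel

end Pool.Agent.helper67.ND
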