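import Mathlib
import Pool.Agent.helper67.ND.C3e
import Pool.Agent.helper59.ND_C1

/-! The inductive step of the tower. -/

namespace Pool.Agent.helper67.ND

open Pool.Agent.helper59.NDC1

open scoped BigOperators

variable {k K F : Type} [Field k] [Field K] [Field F] [Algebra k K] [Algebra K F] {N : ℕ}
variable {U : Type} [AddCommGroup U] [Module K U]

lemma Env.aff_single (En : Env K F N) (i : Fin N) :
    En.aff (Pi.single i.succ 1 : Vec k N) = En.y i := by
  rw [En.aff_def]
  rw [Finset.sum_eq_single i]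
  · simp
  · intro j _ hj
    have : (Pi.single i.succ 1 : Vec k N) j.succ = 0 := by
      rw [Pi.single_apply, if_neg]
      intro h; exact hj (Fin.succ_injective _ h)
    rw [this]; simp
  · intro h; exact absurd (Finset.mem_univ i) h

section

variable (En : Env K F N) {H : Finset (Vec k N)} (hH : Tower H) {j : ℕ} (hj : j + 1 < N + 1)

/-- the pole of a top element -/
noncomputable def pole (v : Top H ⟨j + 1, hj⟩) : F := En.y ⟨j, by omega⟩ - En.aff v.1

lemma sub_pole (v : Top H ⟨j + 1, hj⟩) : En.y ⟨j, by omega⟩ - pole En hj v = En.aff v.1 := by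
  unfold pole; ring

lemma pole_mem (v : Top H ⟨j + 1, hj⟩) : pole En hj v ∈ ringAt En H j := by
  have h1 : pole En hj v = En.aff ((Pi.single (⟨j, by omega⟩ : Fin N).succ 1 : Vec k N) - v.1) := by
    rw [En.aff_sub, En.aff_single]; rfl
  rw [h1]
  refine aff_mem_ringAt En H ?_
  intro m hm
  rcases Nat.lt_or_ge (j + 1) (m : ℕ) with h2 | h2
  · rw [Pi.sub_apply, v.2.2.2 m h2, Pi.single_apply, if_neg, sub_zero]
    intro h; rw [h] at h2; simp at h2
  · have h3 : m = ⟨j + 1, hj⟩ := Fin.ext (le_antisymm h2 hm)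
    have h4 : (⟨j, by omega⟩ : Fin N).succ = ⟨j + 1, hj⟩ := rfl
    rw [Pi.sub_apply, h4, h3, v.2.2.1, Pi.single_eq_same, sub_self]

include hH in
lemma pole_diff (v w : Top H ⟨j + 1, hj⟩) (hvw : v ≠ w) :
    pole En hj v ≠ pole En hj w ∧ (pole En hj v - pole En hj w)⁻¹ ∈ ringAt En H j := by
  have h1 : pole En hj v - pole En hj w = En.aff (w.1 - v.1) := by
    rw [En.aff_sub]; unfold pole; ring
  obtain ⟨l, hl, c, hc, h⟩ := Top.diff hH hj w.2.1 w.2.2 v.2.1 v.2.2
    (fun h' => hvw (Subtype.ext h'.symm))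
  constructor
  · intro h'
    rw [← sub_eq_zero, h1] at h'
    have := En.aff_injective h'
    rw [sub_eq_zero] at this
    exact hvw (Subtype.ext this.symm)
  · rw [h1, h, En.aff_smul, mul_inv]
    refine Subalgebra.mul_mem _ ?_ (inv_mem_ringAt En H hl)
    rw [← map_inv₀]
    exact cst_mem_ringAt En H j _

include hH in
lemma extRing_eq : extRing (ringAt En H j) (En.y ⟨j, by omega⟩) (pole En hj (H := H)) =
    ringAt En H (j + 1) := by
  apply le_antisymm
  · refine Algebra.adjoin_le ?_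
    rintro f ((hf | hf) | ⟨v, rfl⟩)
    · exact ringAt_mono En H (Nat.le_succ j) hf
    · rw [Set.mem_singleton_iff] at hf
      subst hf
      exact y_mem_ringAt En H (Nat.lt_succ_self j)
    · simp only [sub_pole]
      exact inv_mem_ringAt En H (Top.mem_inW hj v)
  · refine Algebra.adjoin_le ?_
    rintro f (⟨i, hi, rfl⟩ | ⟨v, hv, hv', rfl⟩)
    · rcases Nat.lt_succ_iff_lt_or_eq.1 hi with h | h
      · exact Algebra.subset_adjoin (Or.inl (Or.inl (y_mem_ringAt En H h)))
      · refine Algebra.subset_adjoin (Or.inl (Or.inr ?_))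
        have : i = ⟨j, by omega⟩ := Fin.ext h
        rw [this]; rfl
    · rcases (mem_inW_succ hH hj).1 (mem_inW.2 ⟨hv, hv'⟩) with h | h
      · exact Algebra.subset_adjoin (Or.inl (Or.inl (inv_mem_ringAt En H h)))
      · refine Algebra.subset_adjoin (Or.inr ⟨⟨v, h⟩, ?_⟩)
        simp only [sub_pole]

end

lemma inW_top_single {H : Finset (Vec k N)} (hH : Tower H) {j : ℕ} (hj : j + 1 < N + 1)
    (v : Top H ⟨j + 1, hj⟩) (B : Vec k N → Module.End K U) :
    ∑ w ∈ inW H (Lv k N (j + 1) ⊓ Submodule.span k {v.1}), B w = B v.1 := by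
  classical
  refine Finset.sum_eq_single_of_mem v.1 ?_ ?_
  · refine mem_inW.2 ⟨v.2.1, ?_, Submodule.mem_span_singleton_self _⟩
    exact v.2.2.mem_Lv le_rfl
  · intro w hw hne
    exfalso
    obtain ⟨h1, h2, h3⟩ := mem_inW.1 hw
    obtain ⟨c, hc⟩ := Submodule.mem_span_singleton.1 h3
    have hc0 : c ≠ 0 := by
      rintro rfl
      rw [zero_smul] at hc
      exact hH.ne_zero h1 hc.symm
    exact hne (hH.dir_unique h1 v.2.1 one_ne_zero hc0 (by rw [one_smul, hc]))

lemma Good.bij_top [FiniteDimensional K U] {H : Finset (Vec k N)} (hH : Tower H) {j : ℕ}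
    (hj : j + 1 < N + 1) {B : Vec k N → Module.End K U} (hB : Good H (j + 1) B)
    (v : Top H ⟨j + 1, hj⟩) (m : ℕ) (hm : 1 ≤ m) :
    Function.Bijective (fun u => B v.1 u - (m : K) • u) := by
  have h1 := hB.inj (Submodule.span k {v.1}) m (by exact_mod_cast (by omega : m ≠ 0))
  rw [inW_top_single hH hj v B] at h1
  have h2 : (fun u => B v.1 u - (m : K) • u) =
      (B v.1 - (m : K) • (1 : Module.End K U) : Module.End K U) := by
    funext u; simp
  simp only [Int.cast_natCast] at h1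
  rw [h2] at h1 ⊢
  exact ⟨h1, LinearMap.injective_iff_surjective.1 h1⟩

lemma Good.bij_T [FiniteDimensional K U] {H : Finset (Vec k N)} (hH : Tower H) {j : ℕ}
    (hj : j + 1 < N + 1) {B : Vec k N → Module.End K U} (hB : Good H (j + 1) B)
    (m : ℕ) (hm : 1 ≤ m) :
    Function.Bijective (fun u => ∑ v : Top H ⟨j + 1, hj⟩, B v.1 u + (m : K) • u) := by
  have h1 := hB.inj (Lv k N j) m (by exact_mod_cast (by omega : m ≠ 0))
  have h3 : Lv k N (j + 1) ⊓ Lv k N j = Lv k N j := inf_eq_right.2 (Lv_mono (Nat.le_succ j))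
  rw [h3] at h1
  simp only [Int.cast_natCast] at h1
  have h4 := hB.sum_zero
  rw [sum_inW_succ hH hj] at h4
  have h5 : ∑ v : Top H ⟨j + 1, hj⟩, B v.1 = - ∑ v ∈ inW H (Lv k N j), B v := by
    rw [eq_neg_iff_add_eq_zero, add_comm]; exact h4
  have h2 : (fun u => ∑ v : Top H ⟨j + 1, hj⟩, B v.1 u + (m : K) • u) =
      ((∑ v : Top H ⟨j + 1, hj⟩, B v.1) + (m : K) • (1 : Module.End K U) : Module.End K U) := by
    funext u; simp
  rw [h2]
  have h6 : Function.Injective ((∑ v : Top H ⟨j + 1, hj⟩, B v.1) + (m : K) •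
      (1 : Module.End K U) : Module.End K U) := by
    rw [h5]
    intro a b hab
    apply h1
    simp only [LinearMap.add_apply, LinearMap.neg_apply, LinearMap.smul_apply,
      Module.End.one_apply] at hab
    have := congrArg Neg.neg hab
    simp only [neg_add_rev, neg_neg] at this
    simp only
    rw [sub_eq_add_neg, add_comm, this, sub_eq_add_neg, add_comm]
  exact ⟨h6, LinearMap.injective_iff_surjective.1 h6⟩

open Classical in
theorem tower_step [CharZero K] [FiniteDimensional K U] (En : Env K F N)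
    {H : Finset (Vec k N)} (hH : Tower H) {j : ℕ} (hj : j + 1 < N + 1)
    (B : Vec k N → Module.End K U) (hB : Good H (j + 1) B)
    (L' : F →ₗ[K] (Top H ⟨j + 1, hj⟩ → U))
    (h1 : ∀ r ∈ ringAt En H j, ∑ v, B v.1 (L' r v) = 0)
    (h2 : ∀ i : Fin N, (i : ℕ) < j → ∀ r ∈ ringAt En H j,
      L' (En.D i r) = - ∑ l ∈ inW H (Lv k N j), (algebraMap k K (l i.succ)) •
        Bp H ⟨j + 1, hj⟩ B l (L' (r * (En.aff l)⁻¹))) :
    ∃ L : F →ₗ[K] U,
      (∀ i : Fin N, (i : ℕ) < j + 1 → ∀ s ∈ ringAt En H (j + 1),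
        L (En.D i s) = - ∑ l ∈ inW H (Lv k N (j + 1)), (algebraMap k K (l i.succ)) •
          B l (L (s * (En.aff l)⁻¹))) ∧
      (∀ r ∈ ringAt En H j, ∀ v : Top H ⟨j + 1, hj⟩, L (r * (En.aff v.1)⁻¹) = L' r v) := by
  set jN : Fin N := ⟨j, by omega⟩ with hjN
  have hz : En.D jN (En.y jN) = 1 := by rw [En.D_y, if_pos rfl]
  have hA : ∀ r ∈ ringAt En H j, En.D jN r = 0 := fun r hr =>
    D_eq_zero_ringAt En H jN le_rfl hr
  obtain ⟨L, hL1, hL2⟩ := one_step_exists (ringAt En H j) (En.y jN) (En.D jN) hz hA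
    (pole En hj (H := H)) (pole_mem En hj) (fun v w hvw => pole_diff En hH hj v w hvw)
    (fun v => B v.1) (fun v m hm => hB.bij_top hH hj v m hm) (fun m hm => hB.bij_T hH hj m hm)
    L' h1
  rw [extRing_eq En hH hj] at hL1
  simp only [hjN, sub_pole] at hL1 hL2
  rw [← hjN] at hL1
  refine ⟨L, ?_, hL2⟩
  -- the vertical relation
  have hvert : ∀ s ∈ ringAt En H (j + 1), L (En.D jN s) =
      - ∑ l ∈ inW H (Lv k N (j + 1)), (algebraMap k K (l jN.succ)) •
          B l (L (s * (En.aff l)⁻¹)) := by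
    intro s hs
    have h0 : ∑ l ∈ inW H (Lv k N j), (algebraMap k K (l jN.succ)) •
        B l (L (s * (En.aff l)⁻¹)) = 0 := by
      refine Finset.sum_eq_zero fun l hl => ?_
      have : l jN.succ = 0 := (mem_inW.1 hl).2 _ (Nat.lt_succ_self j)
      rw [this, map_zero, zero_smul]
    rw [hL1 s hs, sum_inW_succ hH hj, h0, zero_add]
    congr 1
    refine Finset.sum_congr rfl fun v _ => ?_
    have : v.1 jN.succ = 1 := v.2.2.1
    rw [this, map_one, one_smul]
  intro i hi
  rcases Nat.lt_succ_iff_lt_or_eq.1 hi with hi' | hi'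
  swap
  · have : i = jN := Fin.ext hi'
    rw [this]; exact hvert
  -- horizontal relation
  set E : F →ₗ[K] U := L ∘ₗ (En.D i).toLinearMap +
    ∑ l ∈ inW H (Lv k N (j + 1)), (algebraMap k K (l i.succ)) •
      (B l ∘ₗ L ∘ₗ LinearMap.mulRight K (En.aff l)⁻¹) with hE
  have hEapp : ∀ s, E s = L (En.D i s) + ∑ l ∈ inW H (Lv k N (j + 1)),
      (algebraMap k K (l i.succ)) • B l (L (s * (En.aff l)⁻¹)) := by
    intro s
    simp [hE, LinearMap.sum_apply]
  suffices h : ∀ s ∈ ringAt En H (j + 1), E s = 0 by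
    intro s hs
    have := h s hs
    rw [hEapp] at this
    exact eq_neg_of_add_eq_zero_left this
  have hgoal := one_step_unique (ringAt En H j) (En.y jN) (En.D jN) hz hA
    (pole En hj (H := H)) (pole_mem En hj) (fun v w hvw => pole_diff En hH hj v w hvw)
    (fun v => B v.1) (fun v m hm => (hB.bij_top hH hj v m hm).1)
    (fun m hm => (hB.bij_T hH hj m hm).1) E
  rw [extRing_eq En hH hj] at hgoal
  simp only [hjN, sub_pole] at hgoal
  rw [← hjN] at hgoal
  refine hgoal ?_ ?_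
  · -- vertical relation for `E`
    intro s hs
    rw [hEapp, En.D_comm, hL1 _ (D_mem_ringAt En H i hs)]
    have hDl : ∀ l ∈ inW H (Lv k N (j + 1)), L (En.D jN s * (En.aff l)⁻¹) =
        - ∑ v : Top H ⟨j + 1, hj⟩, B v.1 (L (s * (En.aff l)⁻¹ * (En.aff v.1)⁻¹)) +
          (algebraMap k K (l jN.succ)) • L (s * (En.aff l)⁻¹ * (En.aff l)⁻¹) := by
      intro l hl
      have h3 : En.D jN s * (En.aff l)⁻¹ = En.D jN (s * (En.aff l)⁻¹) +
          En.cst (l jN.succ) * (s * (En.aff l)⁻¹ * (En.aff l)⁻¹) := by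
        rw [Derivation.leibniz, En.D_inv, En.D_aff, smul_eq_mul, smul_eq_mul]
        ring
      rw [h3, map_add, map_cst, hL1 _ (Subalgebra.mul_mem _ hs (inv_mem_ringAt En H hl))]
    have h4 : ∑ l ∈ inW H (Lv k N (j + 1)),
        (algebraMap k K (l i.succ)) • B l (L (En.D jN s * (En.aff l)⁻¹)) =
        - ∑ v : Top H ⟨j + 1, hj⟩, ∑ l ∈ inW H (Lv k N (j + 1)), (algebraMap k K (l i.succ)) •
          (B l * B v.1) (L (s * (En.aff l)⁻¹ * (En.aff v.1)⁻¹)) +
        ∑ v : Top H ⟨j + 1, hj⟩, (algebraMap k K (v.1 i.succ)) •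
          B v.1 (L (s * (En.aff v.1)⁻¹ * (En.aff v.1)⁻¹)) := by
      have h5 : ∀ l ∈ inW H (Lv k N (j + 1)),
          (algebraMap k K (l i.succ)) • B l (L (En.D jN s * (En.aff l)⁻¹)) =
          - (∑ v : Top H ⟨j + 1, hj⟩, (algebraMap k K (l i.succ)) •
            (B l * B v.1) (L (s * (En.aff l)⁻¹ * (En.aff v.1)⁻¹))) +
          (algebraMap k K (l i.succ) * algebraMap k K (l jN.succ)) •
            B l (L (s * (En.aff l)⁻¹ * (En.aff l)⁻¹)) := by
        intro l hl
        rw [hDl l hl, map_add, map_neg, map_sum, map_smul, smul_add, smul_neg, Finset.smul_sum,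
          smul_smul]
        rfl
      rw [Finset.sum_congr rfl h5, Finset.sum_add_distrib, Finset.sum_neg_distrib,
        Finset.sum_comm]
      congr 1
      rw [sum_inW_succ hH hj, Finset.sum_eq_zero, zero_add]
      · refine Finset.sum_congr rfl fun v _ => ?_
        have : v.1 jN.succ = 1 := v.2.2.1
        rw [this, map_one, mul_one]
      · intro l hl
        have : l jN.succ = 0 := (mem_inW.1 hl).2 _ (Nat.lt_succ_self j)
        rw [this, map_zero, mul_zero, zero_smul]
    rw [h4]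
    -- right-hand side
    have h6 : ∀ v : Top H ⟨j + 1, hj⟩, B v.1 (E (s * (En.aff v.1)⁻¹)) =
        B v.1 (L (En.D i s * (En.aff v.1)⁻¹)) -
          (algebraMap k K (v.1 i.succ)) • B v.1 (L (s * (En.aff v.1)⁻¹ * (En.aff v.1)⁻¹)) +
        ∑ l ∈ inW H (Lv k N (j + 1)), (algebraMap k K (l i.succ)) •
          (B v.1 * B l) (L (s * (En.aff l)⁻¹ * (En.aff v.1)⁻¹)) := by
      intro v
      have h7 : En.D i (s * (En.aff v.1)⁻¹) = En.D i s * (En.aff v.1)⁻¹ -
          En.cst (v.1 i.succ) * (s * (En.aff v.1)⁻¹ * (En.aff v.1)⁻¹) := by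
        rw [Derivation.leibniz, En.D_inv, En.D_aff, smul_eq_mul, smul_eq_mul]
        ring
      rw [hEapp, h7, map_sub, map_cst, map_add, map_sub, map_smul, map_sum]
      congr 1
      refine Finset.sum_congr rfl fun l _ => ?_
      rw [map_smul, mul_right_comm]
      rfl
    rw [Finset.sum_congr rfl fun v _ => h6 v, Finset.sum_add_distrib, Finset.sum_sub_distrib]
    have h8 := curvature_zero En hH hj B hB (L ∘ₗ LinearMap.mulLeft K s) i
    simp only [LinearMap.comp_apply, LinearMap.mulLeft_apply, LinearMap.sub_apply, smul_sub,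
      Finset.sum_sub_distrib, ← mul_assoc] at h8
    rw [sub_eq_zero] at h8
    rw [h8]
    abel
  · -- initial values for `E`
    intro r hr v
    rw [hEapp]
    have h7 : En.D i (r * (En.aff v.1)⁻¹) = En.D i r * (En.aff v.1)⁻¹ -
        En.cst (v.1 i.succ) * (r * (En.aff v.1)⁻¹ * (En.aff v.1)⁻¹) := by
      rw [Derivation.leibniz, En.D_inv, En.D_aff, smul_eq_mul, smul_eq_mul]
      ring
    rw [h7, map_sub, map_cst, hL2 _ (D_mem_ringAt En H i hr), h2 i hi' r hr]
    -- the vertical relation at `r / v`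
    have hr' : r ∈ ringAt En H (j + 1) := ringAt_mono En H (Nat.le_succ j) hr
    have h8 : L (r * (En.aff v.1)⁻¹ * (En.aff v.1)⁻¹) =
        ∑ w : Top H ⟨j + 1, hj⟩, B w.1 (L (r * (En.aff v.1)⁻¹ * (En.aff w.1)⁻¹)) := by
      have h9 := hL1 _ (Subalgebra.mul_mem _ hr' (inv_mem_ringAt En H (Top.mem_inW hj v)))
      have h10 : En.D jN (r * (En.aff v.1)⁻¹) = - (r * (En.aff v.1)⁻¹ * (En.aff v.1)⁻¹) := by
        rw [Derivation.leibniz, En.D_inv, En.D_aff, smul_eq_mul, smul_eq_mul, hA r hr]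
        have : v.1 jN.succ = 1 := v.2.2.1
        rw [this]; simp; ring
      rw [h10, map_neg] at h9
      exact neg_injective h9
    rw [h8, sum_inW_succ hH hj]
    -- expand `Bp`
    simp only [Pi.neg_apply, Finset.sum_apply, Pi.smul_apply]
    have h11 : ∀ l ∈ inW H (Lv k N j), Bp H ⟨j + 1, hj⟩ B l (L' (r * (En.aff l)⁻¹)) v =
        B l (L (r * (En.aff v.1)⁻¹ * (En.aff l)⁻¹)) +
        ∑ w : Top H ⟨j + 1, hj⟩, if (∃ c : k, c ≠ 0 ∧ v.1 - w.1 = c • l) then
          B w.1 (L (r * (En.aff l)⁻¹ * (En.aff v.1)⁻¹) -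
            L (r * (En.aff l)⁻¹ * (En.aff w.1)⁻¹)) else 0 := by
      intro l hl
      have h12 : ∀ w : Top H ⟨j + 1, hj⟩, L' (r * (En.aff l)⁻¹) w =
          L (r * (En.aff l)⁻¹ * (En.aff w.1)⁻¹) := fun w =>
        (hL2 _ (Subalgebra.mul_mem _ hr (inv_mem_ringAt En H hl)) w).symm
      simp only [Bp, LinearMap.coe_mk, AddHom.coe_mk, h12]
      rw [mul_right_comm r]
    have h13 : ∑ l ∈ inW H (Lv k N j), (algebraMap k K (l i.succ)) •
        Bp H ⟨j + 1, hj⟩ B l (L' (r * (En.aff l)⁻¹)) v =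
        ∑ l ∈ inW H (Lv k N j), (algebraMap k K (l i.succ)) •
          B l (L (r * (En.aff v.1)⁻¹ * (En.aff l)⁻¹)) +
        ∑ w : Top H ⟨j + 1, hj⟩, (algebraMap k K (w.1 i.succ) - algebraMap k K (v.1 i.succ)) •
          B w.1 (L (r * (En.aff v.1)⁻¹ * (En.aff w.1)⁻¹)) := by
      rw [Finset.sum_congr rfl fun l hl => by rw [h11 l hl, smul_add], Finset.sum_add_distrib]
      congr 1
      have hre := sum_dir hH hj v
        (fun l w => (algebraMap k K (l i.succ)) •
          B w.1 (L (r * (En.aff l)⁻¹ * (En.aff v.1)⁻¹) - L (r * (En.aff l)⁻¹ * (En.aff w.1)⁻¹)))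
        (fun w => (algebraMap k K (w.1 i.succ) - algebraMap k K (v.1 i.succ)) •
          B w.1 (L (r * (En.aff v.1)⁻¹ * (En.aff w.1)⁻¹))) (by simp) (by
          intro w hw l hl c hc h
          have hid := key_id En h (hH.ne_zero v.2.1) (hH.ne_zero w.2.1)
            (hH.ne_zero (mem_inW.1 hl).1) i
          have := congrArg (L ∘ₗ LinearMap.mulLeft K r) hid
          rw [sub_mul, map_sub, map_cst, map_cst, mul_sub, map_sub, map_cst, map_cst] at this
          simp only [LinearMap.comp_apply, LinearMap.mulLeft_apply, ← mul_assoc] at this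
          rw [← map_smul, smul_sub, ← this, ← sub_smul, map_smul])
      rw [← hre]
      refine Finset.sum_congr rfl fun l _ => ?_
      rw [Finset.smul_sum]
      refine Finset.sum_congr rfl fun w _ => ?_
      split_ifs
      · rfl
      · rw [smul_zero]
    rw [h13]
    simp only [sub_smul, Finset.sum_sub_distrib, Finset.smul_sum]
    abel

end Pool.Agent.helper67.ND
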