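import Mathlib
import Pool.Agent.helper67.ND.C3f
import Pool.Agent.helper31.ND_C2

/-! Module C3: existence of the horizontal functional. -/

namespace Pool.Agent.helper67.ND

open Pool.Agent.helper31.NDC

open scoped BigOperators

variable {k K F : Type} [Field k] [Field K] [Field F] [Algebra k K] [Algebra K F] {N : ℕ}
variable {U : Type} [AddCommGroup U] [Module K U]

lemma inW_mono_succ {H : Finset (Vec k N)} {j : ℕ} {v : Vec k N}
    (hv : v ∈ inW H (Lv k N j)) : v ∈ inW H (Lv k N (j + 1)) :=
  mem_inW.2 ⟨(mem_inW.1 hv).1, Lv_mono (Nat.le_succ j) (mem_inW.1 hv).2⟩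

section

variable {H : Finset (Vec k N)} (hH : Tower H) {j : ℕ} (hj : j + 1 < N + 1)
  {B : Vec k N → Module.End K U} {x : (Fin (j + 1) → Vec k N) → U}
  (hx : OSfun (K := K) H (j + 1) x)
  (hxB : ∀ a : Fin (j + 1), (a : ℕ) = 0 → ∀ v : Fin (j + 1) → Vec k N,
      (∀ b, v b ∈ inW H (Lv k N (j + 1))) →
      ∑ l ∈ inW H (Lv k N (j + 1)), B l (x (Function.update v a l)) = 0)

include hH hx hxB

lemma xB_cons (v : Fin j → Vec k N) (hv : ∀ b, v b ∈ inW H (Lv k N (j + 1))) :
    ∑ l ∈ inW H (Lv k N (j + 1)), B l (x (Fin.cons l v)) = 0 := by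
  have hmem : ∀ b, (Fin.cons (e0 k N) v : Fin (j + 1) → Vec k N) b ∈ inW H (Lv k N (j + 1)) := by
    intro b
    refine Fin.cases (mem_inW.2 ⟨hH.e0_mem, e0_mem_Lv _⟩) (fun b => ?_) b
    exact hv b
  have := hxB 0 rfl _ hmem
  simpa [Fin.update_cons_zero] using this

lemma x'_mem (v : Fin j → Vec k N) (hv : ∀ b, v b ∈ inW H (Lv k N j)) :
    (fun w : Top H ⟨j + 1, hj⟩ => x (Fin.cons w.1 v)) ∈ Uker H ⟨j + 1, hj⟩ B := by
  have h := xB_cons hH hx hxB v (fun b => inW_mono_succ (hv b))
  have h0 : ∑ l ∈ inW H (Lv k N j), B l (x (Fin.cons l v)) = 0 := by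
    refine Finset.sum_eq_zero fun l hl => ?_
    rw [hx.eq_zero_of_Lv (by omega) (Fin.cons l v : Fin (j + 1) → Vec k N) ?_, map_zero]
    intro a
    refine Fin.cases hl (fun a => ?_) a
    exact hv a
  rw [sum_inW_succ hH hj, h0, zero_add] at h
  rw [Uker, LinearMap.mem_ker]
  simpa [LinearMap.sum_apply] using h

end

open Classical in
/-- (C3) -/
theorem exists_horizontal' [CharZero k] (En : Env K F N) (H : Finset (Vec k N)) (hH : Tower H)
    (j : ℕ) (hj : j ≤ N)
    (U : Type) [AddCommGroup U] [Module K U] [FiniteDimensional K U]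
    (B : Vec k N → Module.End K U) (hB : Good H j B)
    (x : (Fin j → Vec k N) → U) (hx : OSfun (K := K) H j x)
    (hxB : ∀ a : Fin j, (a : ℕ) = 0 → ∀ v : Fin j → Vec k N, (∀ b, v b ∈ inW H (Lv k N j)) →
      ∑ l ∈ inW H (Lv k N j), B l (x (Function.update v a l)) = 0) :
    ∃ L : F →ₗ[K] U,
      (∀ (i : Fin N), (i : ℕ) < j → ∀ s ∈ ringAt En H j,
        L (En.D i s) = - ∑ l ∈ inW H (Lv k N j),
          (algebraMap k K (l i.succ)) • B l (L (s * (En.aff l)⁻¹))) ∧
      (∀ v : Fin j → Vec k N, (∀ a, v a ∈ inW H (Lv k N j)) → L (En.logf hj v) = x v) := by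
  have : CharZero K := charZero_of_injective_algebraMap (algebraMap k K).injective
  induction j generalizing U with
  | zero =>
    obtain ⟨φ, hφ⟩ := (Algebra.linearMap K F).exists_leftInverse_of_injective
      (LinearMap.ker_eq_bot.2 (algebraMap K F).injective)
    refine ⟨φ.smulRight (x Fin.elim0), fun i hi => absurd hi (Nat.not_lt_zero _), ?_⟩
    intro v _
    have h1 : En.logf hj v = 1 := by
      unfold Env.logf ldet
      simp
    have h2 : φ 1 = 1 := by
      have := congrArg (fun f => f 1) hφ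
      simpa using this
    rw [h1, LinearMap.smulRight_apply, h2, one_smul]
    congr 1
    funext a; exact a.elim0
  | succ j ih =>
    have hj1 : j + 1 < N + 1 := by omega
    set U' := Uker H ⟨j + 1, hj1⟩ B with hU'
    set B' := Bq H hH j hj1 B hB with hB'
    have hgood' : Good H j B' := Good_Bq H hH j hj1 B hB
    -- the function one level down
    set x' : (Fin j → Vec k N) → U' := fun v =>
      if hv : ∀ b, v b ∈ inW H (Lv k N j) then
        ⟨fun w : Top H ⟨j + 1, hj1⟩ => x (Fin.cons w.1 v), x'_mem hH hj1 hx hxB v hv⟩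
      else 0 with hx'def
    have hx'app : ∀ v (_ : ∀ b, v b ∈ inW H (Lv k N j)) (w : Top H ⟨j + 1, hj1⟩),
        (x' v).1 w = x (Fin.cons w.1 v) := by
      intro v hv w
      simp only [hx'def, dif_pos hv]
    have hcons : ∀ (w : Top H ⟨j + 1, hj1⟩) (v : Fin j → Vec k N),
        (∀ b, v b ∈ inW H (Lv k N j)) →
        ∀ b, (Fin.cons w.1 v : Fin (j + 1) → Vec k N) b ∈ inW H (Lv k N (j + 1)) := by
      intro w v hv b
      refine Fin.cases (Top.mem_inW hj1 w) (fun b => ?_) b
      exact inW_mono_succ (hv b)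
    have hx'os : OSfun (K := K) H j x' := by
      refine ⟨?_, ?_, ?_⟩
      · intro v hv hdep
        apply Subtype.ext
        funext w
        rw [hx'app v hv w]
        refine hx.dep _ (hcons w v hv) ?_
        intro h
        exact hdep (linearIndependent_finCons.1 h).1
      · intro v hv hone
        apply Subtype.ext
        funext w
        rw [hx'app v hv w]
        refine hx.one _ (hcons w v hv) ?_
        refine Submodule.span_mono ?_ hone
        rintro _ ⟨b, rfl⟩
        exact ⟨b.succ, by simp⟩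
      · intro C hC hdep
        apply Subtype.ext
        funext w
        have hcoe : ((∑ i : Fin (j + 1), ((-1 : ℤ) ^ (i : ℕ)) • x' (C ∘ i.succAbove) : U')
            : Top H ⟨j + 1, hj1⟩ → U) w =
            ∑ i : Fin (j + 1), ((-1 : ℤ) ^ (i : ℕ)) • x (Fin.cons w.1 (C ∘ i.succAbove)) := by
          rw [Submodule.coe_sum, Finset.sum_apply]
          refine Finset.sum_congr rfl fun i _ => ?_
          rw [← hx'app (C ∘ i.succAbove) (fun b => hC _) w]
          rfl
        rw [hcoe]
        have hmem : ∀ b, (Fin.cons w.1 C : Fin (j + 2) → Vec k N) b ∈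
            inW H (Lv k N (j + 1)) := by
          intro b
          refine Fin.cases (Top.mem_inW hj1 w) (fun b => ?_) b
          exact inW_mono_succ (hC b)
        have hos := hx.os _ hmem (fun h => hdep (linearIndependent_finCons.1 h).1)
        rw [Fin.sum_univ_succ] at hos
        have e1 : (Fin.cons w.1 C : Fin (j + 2) → Vec k N) ∘ (0 : Fin (j + 2)).succAbove = C := by
          funext b; simp
        have e2 : ∀ i : Fin (j + 1), (Fin.cons w.1 C : Fin (j + 2) → Vec k N) ∘
            (i.succ).succAbove = Fin.cons w.1 (C ∘ i.succAbove) := by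
          intro i
          funext b
          refine Fin.cases ?_ (fun b => ?_) b
          · simp
          · simp [Fin.succ_succAbove_succ]
        rw [e1, hx.dep C (fun b => inW_mono_succ (hC b)) hdep, smul_zero, zero_add] at hos
        simp only [e2, Fin.val_succ, pow_succ, mul_neg, mul_one, neg_smul,
          Finset.sum_neg_distrib, neg_eq_zero] at hos
        exact hos
    have hx'B : ∀ a : Fin j, (a : ℕ) = 0 → ∀ v : Fin j → Vec k N,
        (∀ b, v b ∈ inW H (Lv k N j)) →
        ∑ l ∈ inW H (Lv k N j), B' l (x' (Function.update v a l)) = 0 := by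
      intro a ha v hv
      obtain ⟨j, rfl⟩ : ∃ j', j = j' + 1 := ⟨j - 1, by have := a.2; omega⟩
      have ha0 : a = 0 := Fin.ext ha
      subst ha0
      set v' : Fin j → Vec k N := Fin.tail v with hv'
      have hv'mem : ∀ b, v' b ∈ inW H (Lv k N (j + 1)) := fun b => hv _
      have hv'mem2 : ∀ b, v' b ∈ inW H (Lv k N (j + 2)) := fun b => inW_mono_succ (hv'mem b)
      have hupd : ∀ l, Function.update v 0 l = (Fin.cons l v' : Fin (j + 1) → Vec k N) := by
        intro l
        rw [hv', ← Fin.cons_self_tail v, Fin.update_cons_zero]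
        simp
      have hupdmem : ∀ l ∈ inW H (Lv k N (j + 1)), ∀ b,
          (Fin.cons l v' : Fin (j + 1) → Vec k N) b ∈ inW H (Lv k N (j + 1)) := by
        intro l hl b
        refine Fin.cases hl (fun b => ?_) b
        exact hv'mem b
      apply Subtype.ext
      funext w
      rw [Submodule.coe_sum, Finset.sum_apply]
      -- component `w`
      have hcomp : ∀ l ∈ inW H (Lv k N (j + 1)),
          ((B' l (x' (Function.update v 0 l)) : U') : Top H ⟨j + 1 + 1, hj1⟩ → U) w =
          B l (x (Fin.cons w.1 (Fin.cons l v' : Fin (j + 1) → Vec k N))) +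
          ∑ w' : Top H ⟨j + 1 + 1, hj1⟩, if (∃ c : k, c ≠ 0 ∧ w.1 - w'.1 = c • l) then
            B w'.1 (x (Fin.cons w.1 (Fin.cons w'.1 v' : Fin (j + 1) → Vec k N))) else 0 := by
        intro l hl
        rw [hupd l]
        have e1 : ((B' l (x' (Fin.cons l v' : Fin (j + 1) → Vec k N)) : U') :
            Top H ⟨j + 1 + 1, hj1⟩ → U) =
            Bp H ⟨j + 1 + 1, hj1⟩ B l
              (x' (Fin.cons l v' : Fin (j + 1) → Vec k N) : Top H ⟨j + 1 + 1, hj1⟩ → U) := by
          rw [hB', Bq, dif_pos hl]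
          rfl
        rw [e1]
        simp only [Bp, LinearMap.coe_mk, AddHom.coe_mk]
        rw [hx'app _ (hupdmem l hl)]
        congr 1
        refine Finset.sum_congr rfl fun w' _ => ?_
        split_ifs with hex
        · obtain ⟨c, hc, h⟩ := hex
          rw [hx'app _ (hupdmem l hl), hx.three w.1 w'.1 l v' (Top.mem_inW hj1 w)
            (Top.mem_inW hj1 w') (inW_mono_succ hl) hv'mem2 h]
        · rfl
      rw [Finset.sum_congr rfl hcomp, Finset.sum_add_distrib]
      have hwself : x (Fin.cons w.1 (Fin.cons w.1 v' : Fin (j + 1) → Vec k N)) = 0 := by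
        refine hx.dep _ ?_ (not_li_of_eq (a := 0) (b := (0 : Fin (j + 1)).succ)
          (Fin.succ_ne_zero _).symm (by simp))
        intro c
        refine Fin.cases (Top.mem_inW hj1 w) (fun c => ?_) c
        refine Fin.cases (Top.mem_inW hj1 w) (fun c => ?_) c
        exact hv'mem2 c
      rw [sum_dir hH hj1 w
        (fun _ w' => B w'.1 (x (Fin.cons w.1 (Fin.cons w'.1 v' : Fin (j + 1) → Vec k N))))
        (fun w' => B w'.1 (x (Fin.cons w.1 (Fin.cons w'.1 v' : Fin (j + 1) → Vec k N))))
        (by rw [hwself, map_zero]) (fun _ _ _ _ _ _ _ => rfl)]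
      have hs := sum_inW_succ hH hj1
        (fun l => B l (x (Fin.cons w.1 (Fin.cons l v' : Fin (j + 1) → Vec k N))))
      rw [← hs]
      have hsw : ∀ l ∈ inW H (Lv k N (j + 1 + 1)),
          B l (x (Fin.cons w.1 (Fin.cons l v' : Fin (j + 1) → Vec k N))) =
          - B l (x (Fin.cons l (Fin.cons w.1 v' : Fin (j + 1) → Vec k N))) := by
        intro l hl
        rw [hx.swap w.1 l v' (Top.mem_inW hj1 w) hl hv'mem2, map_neg]
      rw [Finset.sum_congr rfl hsw, Finset.sum_neg_distrib,
        xB_cons hH hx hxB (Fin.cons w.1 v' : Fin (j + 1) → Vec k N) ?_, neg_zero]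
      · rfl
      · intro c
        refine Fin.cases (Top.mem_inW hj1 w) (fun c => ?_) c
        exact hv'mem2 c
    obtain ⟨L', hL'1, hL'2⟩ := ih (by omega) U' B' hgood' x' hx'os hx'B
    obtain ⟨L, hL1, hL2⟩ := tower_step En hH hj1 B hB (U'.subtype ∘ₗ L') (by
      intro r _
      have h9 : (∑ v : Top H ⟨j + 1, hj1⟩, (B v.1) ∘ₗ
          (LinearMap.proj v : (Top H ⟨j + 1, hj1⟩ → U) →ₗ[K] U)) (L' r).1 = 0 :=
        LinearMap.mem_ker.1 (L' r).2
      rw [LinearMap.sum_apply] at h9
      exact h9) (by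
      intro i hi r hr
      rw [LinearMap.comp_apply, hL'1 i hi r hr, map_neg, map_sum]
      congr 1
      refine Finset.sum_congr rfl fun l hl => ?_
      rw [map_smul]
      congr 1
      rw [hB', Bq, dif_pos hl]
      rfl)
    refine ⟨L, hL1, ?_⟩
    -- straightening
    have hz := (OSfun_logf En hH hj L).sub hx
    have hzero := OSfun.eq_zero_of hH hj1 hz (by
      intro w v hv
      have h1 := logf_cons En hj w.1 w.2.2 v (fun a => (mem_inW.1 (hv a)).2)
      simp only [h1]
      rw [hL2 _ (logf_mem_ringAt En _ v hv) w, LinearMap.comp_apply, hL'2 v hv,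
        Submodule.subtype_apply, hx'app v hv w, sub_self])
    intro v hv
    exact sub_eq_zero.1 (hzero v hv)

end Pool.Agent.helper67.ND
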