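import Mathlib
import Pool.Agent.helper67.ND.C3g
import Pool.Agent.helper61.ND_A
import Pool.Agent.helper31.ND_D

/-! Assembly, part 1: the functional `Λ`. -/

namespace Pool.Agent.helper67.ND

open scoped BigOperators
open Pool.Agent.helper61.NDA

variable {k K F : Type} [Field k] [Field K] [Field F] [Algebra k K] [Algebra K F] {N : ℕ}
variable {ι : Type} [Fintype ι]

open Classical in
/-- the exponents of the elements of the tower -/
noncomputable def cf (l : ι → Vec k N) (α : ι → K) (v : Vec k N) : K :=
  if v = e0 k N then - ∑ i, (if l i = e0 k N then 0 else α i) else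
    ∑ i, if l i = v then α i else 0

/-- the operators at the top level -/
noncomputable def Btop (l : ι → Vec k N) (α : ι → K) (v : Vec k N) : Module.End K K :=
  (cf l α v) • (1 : Module.End K K)

lemma Lv_top : Lv k N N = ⊤ := by
  rw [eq_top_iff]
  intro v _ m hm
  exact absurd m.2 (by omega)

open Classical in
/-- summing over the tower -/
lemma sum_cf {M : Type} [AddCommMonoid M] [Module K M] (l : ι → Vec k N) (α : ι → K)
    (s : Finset (Vec k N)) (hs : e0 k N ∉ s) (f : Vec k N → M) :
    ∑ v ∈ s, (cf l α v) • f v = ∑ i, if l i ∈ s then α i • f (l i) else 0 := by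
  have h1 : ∀ v ∈ s, (cf l α v) • f v = ∑ i, if l i = v then α i • f v else 0 := by
    intro v hv
    unfold cf
    rw [if_neg (fun h => hs (by rw [← h]; exact hv)), Finset.sum_smul]
    refine Finset.sum_congr rfl fun i _ => ?_
    split_ifs <;> simp
  rw [Finset.sum_congr rfl h1, Finset.sum_comm]
  refine Finset.sum_congr rfl fun i _ => ?_
  by_cases hi : l i ∈ s
  · rw [if_pos hi, Finset.sum_eq_single (l i)]
    · rw [if_pos rfl]
    · intro v _ hv; rw [if_neg (Ne.symm hv)]
    · intro h; exact absurd hi h
  · rw [if_neg hi]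
    refine Finset.sum_eq_zero fun v hv => if_neg ?_
    rintro rfl; exact hi hv

open Classical in
lemma sum_cf' {M : Type} [AddCommGroup M] [Module K M] (l : ι → Vec k N) (α : ι → K)
    (s : Finset (Vec k N)) (hs : e0 k N ∈ s) (f : Vec k N → M) :
    ∑ v ∈ s, (cf l α v) • f v = - ((∑ i, (if l i = e0 k N then 0 else α i)) • f (e0 k N)) +
      ∑ i, if (l i ∈ s ∧ l i ≠ e0 k N) then α i • f (l i) else 0 := by
  rw [← Finset.add_sum_erase s _ hs, sum_cf l α _ (Finset.notMem_erase _ _) f]
  congr 1
  · unfold cf
    rw [if_pos rfl, neg_smul]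
  · refine Finset.sum_congr rfl fun i _ => ?_
    simp only [Finset.mem_erase, and_comm]

open Classical in
lemma Good_Btop [CharZero K] {H : Finset (Vec k N)} (hH : Tower H) (l : ι → Vec k N) (hlH : ∀ i, l i ∈ H)
    (α : ι → K) (hres : ∀ s : Finset ι, s.Nonempty → ∀ m : ℤ, ∑ i ∈ s, α i ≠ (m : K)) :
    Good H N (Btop l α) := by
  refine ⟨?_, ?_, ?_⟩
  · rw [Lv_top]
    have h1 := sum_cf' l α (inW H ⊤) (mem_inW.2 ⟨hH.e0_mem, trivial⟩)
      (fun _ => (1 : Module.End K K))
    have h2 : ∑ v ∈ inW H ⊤, Btop l α v = ∑ v ∈ inW H ⊤, (cf l α v) • (1 : Module.End K K) := rfl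
    rw [h2, h1, Finset.sum_smul, neg_add_eq_zero]
    refine Finset.sum_congr rfl fun i _ => ?_
    by_cases hi : l i = e0 k N
    · rw [if_pos hi, if_neg (fun h => h.2 hi), zero_smul]
    · rw [if_neg hi, if_pos ⟨mem_inW.2 ⟨hlH i, trivial⟩, hi⟩]
  · intro W v _ _
    unfold Btop
    rw [← Finset.sum_smul]
    exact ((Commute.one_left _).smul_left _)
  · intro W m hm
    rw [Lv_top, top_inf_eq]
    have hscal : ∃ c : K, (∑ w ∈ inW H W, Btop l α w) = c • (1 : Module.End K K) ∧
        c ≠ (m : K) := by
      refine ⟨∑ w ∈ inW H W, cf l α w, by rw [Finset.sum_smul]; rfl, ?_⟩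
      by_cases hW : e0 k N ∈ W
      · have h1 := sum_cf' l α (inW H W) (mem_inW.2 ⟨hH.e0_mem, hW⟩) (fun _ => (1 : K))
        simp only [smul_eq_mul, mul_one] at h1
        rw [h1]
        have h2 : (∑ i, if l i = e0 k N then 0 else α i) =
            (∑ i, if (l i ∈ inW H W ∧ l i ≠ e0 k N) then α i else 0) +
            ∑ i ∈ Finset.univ.filter (fun i => l i ∉ W), α i := by
          rw [Finset.sum_filter, ← Finset.sum_add_distrib]
          refine Finset.sum_congr rfl fun i _ => ?_
          by_cases hi : l i = e0 k N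
          · rw [if_pos hi, if_neg (fun h => h.2 hi), if_neg (fun h => h (hi ▸ hW)), add_zero]
          · by_cases hiW : l i ∈ W
            · rw [if_neg hi, if_pos ⟨mem_inW.2 ⟨hlH i, hiW⟩, hi⟩, if_neg (fun h => h hiW),
                add_zero]
            · rw [if_neg hi, if_neg (fun h => hiW (mem_inW.1 h.1).2), if_pos hiW, zero_add]
        rw [h2]
        intro h3
        rcases Finset.eq_empty_or_nonempty (Finset.univ.filter (fun i => l i ∉ W)) with h4 | h4
        · rw [h4, Finset.sum_empty, add_zero, neg_add_cancel] at h3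
          exact hm (Int.cast_eq_zero.1 h3.symm)
        · refine hres _ h4 (-m) ?_
          push_cast
          linear_combination -h3
      · have h1 := sum_cf l α (inW H W) (fun h => hW (mem_inW.1 h).2) (fun _ => (1 : K))
        simp only [smul_eq_mul, mul_one] at h1
        rw [h1]
        have h2 : (∑ i, if l i ∈ inW H W then α i else 0) =
            ∑ i ∈ Finset.univ.filter (fun i => l i ∈ W), α i := by
          rw [Finset.sum_filter]
          refine Finset.sum_congr rfl fun i _ => ?_
          by_cases hiW : l i ∈ W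
          · rw [if_pos (mem_inW.2 ⟨hlH i, hiW⟩), if_pos hiW]
          · rw [if_neg (fun h => hiW (mem_inW.1 h).2), if_neg hiW]
        rw [h2]
        intro h3
        rcases Finset.eq_empty_or_nonempty (Finset.univ.filter (fun i => l i ∈ W)) with h4 | h4
        · rw [h4, Finset.sum_empty] at h3
          exact hm (Int.cast_eq_zero.1 h3.symm)
        · exact hres _ h4 m h3
    obtain ⟨c, hc, hcm⟩ := hscal
    intro a b hab
    simp only [hc, LinearMap.smul_apply, Module.End.one_apply, smul_eq_mul] at hab
    have h5 : (c - m) * (a - b) = 0 := by linear_combination hab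
    rcases mul_eq_zero.1 h5 with h6 | h6
    · exact absurd (sub_eq_zero.1 h6) hcm
    · exact sub_eq_zero.1 h6

end Pool.Agent.helper67.ND
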