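import Mathlib
import Pool.Agent.helper67.ND.G2

/-! Assembly, part 2: the functional `Λ`. -/

namespace Pool.Agent.helper67.ND

open scoped BigOperators
open Pool.Agent.helper61.NDA

variable {k K F : Type} [Field k] [Field K] [Field F] [Algebra k K] [Algebra K F] {N : ℕ}
variable {ι : Type} [Fintype ι]

lemma rho_congr (l : ι → Vec k N) {W W' : Submodule k (Vec k N)}
    (h : ∀ i, l i ∈ W ↔ l i ∈ W') : rho l W = rho l W' := by
  unfold rho
  congr 1
  apply LinearMap.ext
  intro x
  funext i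
  simp only [resW, LinearMap.coe_mk, AddHom.coe_mk]
  by_cases hi : l i ∈ W
  · rw [if_pos hi, if_pos ((h i).1 hi)]
  · rw [if_neg hi, if_neg (fun h' => hi ((h i).2 h'))]

lemma e0_ne_zero : e0 k N ≠ 0 := by
  intro h
  have := congrFun h 0
  simp [e0] at this

/-- the kernel vanishes on tuples whose span contains `e0` -/
lemma S_one (l : ι → Vec k N) (hl : ∀ i, l i ≠ 0) (α : ι → K)
    (hgen : ∀ s : Set ι, Submodule.span k (l '' s) ≠ ⊤ → e0 k N ∉ Submodule.span k (l '' s))
    (v : Fin N → Vec k N) (hv : e0 k N ∈ Submodule.span k (Set.range v))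
    (ψ : ExteriorAlgebra k (ι → k)) : S l α N v ψ = 0 := by
  set W := Submodule.span k (Set.range v) with hW
  set W0 := Submodule.span k (l '' {i | l i ∈ W}) with hW0
  have hle : W0 ≤ W := by
    rw [hW0, Submodule.span_le]
    rintro _ ⟨i, hi, rfl⟩
    exact hi
  have hWtop : W ≠ ⊤ := by
    intro h
    have h1 : Module.finrank k W ≤ N := by
      rw [hW]
      exact (finrank_range_le_card v).trans (by simp)
    rw [h, finrank_top, Module.finrank_fin_fun] at h1
    omega
  have hW0top : W0 ≠ ⊤ := fun h => hWtop (top_le_iff.1 (h ▸ hle))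
  have he : e0 k N ∉ W0 := hgen _ hW0top
  have hex : ∃ a, v a ∉ W0 := by
    by_contra hcon
    push Not at hcon
    apply he
    have : W ≤ W0 := by
      rw [hW, Submodule.span_le]
      rintro _ ⟨a, rfl⟩
      exact hcon a
    exact this hv
  have hiff : ∀ i, l i ∈ W ↔ l i ∈ W0 := fun i =>
    ⟨fun h => Submodule.subset_span ⟨i, h, rfl⟩, fun h => hle h⟩
  rw [← S_rho l α v W le_rfl ψ, rho_congr l hiff]
  refine S_supp l hl α v W0 hex _ ?_
  exact rho_rho_of_le l le_rfl ψ

lemma OSfun_S {H : Finset (Vec k N)} (hH : Tower H) (l : ι → Vec k N) (hl : ∀ i, l i ≠ 0)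
    (α : ι → K)
    (hgen : ∀ s : Set ι, Submodule.span k (l '' s) ≠ ⊤ → e0 k N ∉ Submodule.span k (l '' s))
    (ψ : ExteriorAlgebra k (ι → k)) :
    OSfun (K := K) H N (fun v => S l α N v ψ) where
  dep v _ h := by
    cases N with
    | zero => exact absurd (linearIndependent_empty_type) h
    | succ r => exact S_dep l α v h ψ
  one v _ h := S_one l hl α hgen v h ψ
  os C hC h := S_os l α C (fun a => hH.ne_zero (mem_inW.1 (hC a)).1) h ψ

open Classical in
/-- The functional `Λ`. -/
theorem exists_Lambda [CharZero k] (En : Env K F N) {H : Finset (Vec k N)} (hH : Tower H)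
    (l : ι → Vec k N) (hlH : ∀ i, l i ∈ H)
    (hgen : ∀ s : Set ι, Submodule.span k (l '' s) ≠ ⊤ → e0 k N ∉ Submodule.span k (l '' s))
    (R : Subring K) (hk : ∀ c : k, algebraMap k K c ∈ R)
    (α : ι → K) (hα : ∀ i, α i ∈ R)
    (hunit : ∀ m : ℕ, 1 ≤ m → ∃ u ∈ R, u * ((m : K) + ∑ i, α i) = 1)
    (hres : ∀ s : Finset ι, s.Nonempty → ∀ m : ℤ, ∑ i ∈ s, α i ≠ (m : K))
    (Ψ : ExteriorAlgebra k (ι → k)) :
    ∃ L : F →ₗ[K] K,
      (∀ (i : Fin N), ∀ s ∈ Algebra.adjoin K (Set.range En.y ∪
          Set.range (fun e => (En.aff (l e))⁻¹)),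
        L (En.D i s) =
          - ∑ e, α e * (algebraMap k K (l e i.succ)) * L (s * (En.aff (l e))⁻¹)) ∧
      (∀ e : Fin N → ι, L (En.logf le_rfl (l ∘ e)) = S l α N (l ∘ e) (bd k ι Ψ)) ∧
      (∀ (m : ℕ) (g : Fin m → Vec k N), L (∏ a, En.aff (g a)) ∈ R) := by
  have : CharZero K := charZero_of_injective_algebraMap (algebraMap k K).injective
  have hl : ∀ i, l i ≠ 0 := fun i => hH.ne_zero (hlH i)
  have hal : ∀ W : Submodule k (Vec k N), (∃ i, l i ∈ W) → al l α W ≠ 0 := by
    rintro W ⟨i, hi⟩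
    have h1 := hres (Finset.univ.filter (fun i => l i ∈ W)) ⟨i, by simpa using hi⟩ 0
    rw [Finset.sum_filter, Int.cast_zero] at h1
    exact h1
  obtain ⟨L, hL1, hL2⟩ := exists_horizontal' En H hH N le_rfl K (Btop l α)
    (Good_Btop hH l hlH α hres) (fun v => S l α N v (bd k ι Ψ))
    (OSfun_S hH l hl α hgen _) (by
      intro a ha v hv
      obtain ⟨r, rfl⟩ : ∃ r, N = r + 1 := ⟨N - 1, by have := a.2; omega⟩
      have ha0 : a = 0 := Fin.ext ha
      subst ha0
      set v' : Fin r → Vec k (r + 1) := Fin.tail v with hv'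
      have hupd : ∀ w, Function.update v 0 w = (Fin.cons w v' : Fin (r + 1) → _) := by
        intro w
        rw [hv', ← Fin.cons_self_tail v, Fin.update_cons_zero]
        simp
      simp only [hupd]
      have h1 := sum_cf' l α (inW H (Lv k (r + 1) (r + 1)))
        (mem_inW.2 ⟨hH.e0_mem, e0_mem_Lv _⟩)
        (fun w => S l α (r + 1) (Fin.cons w v' : Fin (r + 1) → _) (bd k ι Ψ))
      have h2 : ∀ w ∈ inW H (Lv k (r + 1) (r + 1)),
          Btop l α w (S l α (r + 1) (Fin.cons w v' : Fin (r + 1) → _) (bd k ι Ψ)) =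
          (cf l α w) • S l α (r + 1) (Fin.cons w v' : Fin (r + 1) → _) (bd k ι Ψ) :=
        fun w _ => rfl
      rw [Finset.sum_congr rfl h2, h1]
      have h3 : S l α (r + 1) (Fin.cons (e0 k (r + 1)) v' : Fin (r + 1) → _) (bd k ι Ψ) = 0 :=
        S_one l hl α hgen _ (Submodule.subset_span ⟨0, by simp⟩) _
      rw [h3, smul_zero, neg_zero, zero_add]
      have h4 : ∀ i, (if (l i ∈ inW H (Lv k (r + 1) (r + 1)) ∧ l i ≠ e0 k (r + 1)) then
          α i • S l α (r + 1) (Fin.cons (l i) v' : Fin (r + 1) → _) (bd k ι Ψ) else 0) =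
          α i * S l α (r + 1) (Fin.cons (l i) v' : Fin (r + 1) → _) (bd k ι Ψ) := by
        intro i
        by_cases hi : l i = e0 k (r + 1)
        · rw [if_neg (fun h => h.2 hi), hi, h3, mul_zero]
        · rw [if_pos ⟨mem_inW.2 ⟨hlH i, by rw [Lv_top]; trivial⟩, hi⟩]
          rfl
      rw [Finset.sum_congr rfl fun i _ => h4 i, S_adj l hl α hal v', bd_bd, map_zero])
  have hsub : Algebra.adjoin K (Set.range En.y ∪ Set.range (fun e => (En.aff (l e))⁻¹)) ≤
      ringAt En H N := by
    refine Algebra.adjoin_le ?_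
    rintro f (⟨i, rfl⟩ | ⟨e, rfl⟩)
    · exact y_mem_ringAt En H i.2
    · exact inv_mem_ringAt En H (mem_inW.2 ⟨hlH e, by rw [Lv_top]; trivial⟩)
  have hA : ∀ (i : Fin N), ∀ s ∈ Algebra.adjoin K (Set.range En.y ∪
          Set.range (fun e => (En.aff (l e))⁻¹)),
        L (En.D i s) =
          - ∑ e, α e * (algebraMap k K (l e i.succ)) * L (s * (En.aff (l e))⁻¹) := by
    intro i s hs
    rw [hL1 i i.2 s (hsub hs)]
    congr 1
    have h1 := sum_cf' l α (inW H (Lv k N N)) (mem_inW.2 ⟨hH.e0_mem, e0_mem_Lv _⟩)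
      (fun w => (algebraMap k K (w i.succ)) • L (s * (En.aff w)⁻¹))
    have h2 : ∀ w ∈ inW H (Lv k N N),
        (algebraMap k K (w i.succ)) • Btop l α w (L (s * (En.aff w)⁻¹)) =
        (cf l α w) • ((algebraMap k K (w i.succ)) • L (s * (En.aff w)⁻¹)) := by
      intro w _
      simp only [Btop, LinearMap.smul_apply, Module.End.one_apply, smul_eq_mul]
      ring
    rw [Finset.sum_congr rfl h2, h1]
    have h3 : (e0 k N) i.succ = 0 := by simp [e0]
    rw [h3, map_zero, zero_smul, smul_zero, neg_zero, zero_add]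
    refine Finset.sum_congr rfl fun e _ => ?_
    by_cases hi : l e = e0 k N
    · rw [if_neg (fun h => h.2 hi), hi, h3, map_zero, mul_zero, zero_mul]
    · rw [if_pos ⟨mem_inW.2 ⟨hlH e, by rw [Lv_top]; trivial⟩, hi⟩, smul_eq_mul, smul_eq_mul,
        mul_assoc]
  have hB : ∀ e : Fin N → ι, L (En.logf le_rfl (l ∘ e)) = S l α N (l ∘ e) (bd k ι Ψ) := by
    intro e
    exact hL2 (l ∘ e) (fun a => mem_inW.2 ⟨hlH _, by rw [Lv_top]; trivial⟩)
  refine ⟨L, hA, hB, ?_⟩
  refine Pool.Agent.helper31.NDD.integral En l hl hgen R hk α hα hunit L hA ?_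
  intro ch hbot hch
  have h5 := S_flag l hl α hal ch hbot hch (bd k ι Ψ)
  simp only [hB]
  obtain ⟨c, hc⟩ := h5
  rw [← hc]
  exact hk c

/-- `Λ (1 / ∏ l_b)` -/
theorem Lambda_basis [CharZero k] (En : Env K F N) (l : ι → Vec k N) (hl : ∀ i, l i ≠ 0)
    (α : ι → K) (hal : al l α (⊤ : Submodule k (Vec k N)) ≠ 0)
    (Ψ : ExteriorAlgebra k (ι → k)) (L : F →ₗ[K] K)
    (hL : ∀ e : Fin N → ι, L (En.logf le_rfl (l ∘ e)) = S l α N (l ∘ e) (bd k ι Ψ))
    (b : Fin (N + 1) → ι) (hb : LinearIndependent k (l ∘ b)) :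
    ∃ δ : k, δ ≠ 0 ∧ algebraMap k K δ * L (∏ a, (En.aff (l (b a)))⁻¹) =
      al l α (⊤ : Submodule k (Vec k N)) * S l α (N + 1) (l ∘ b) Ψ := by
  set C : Fin (N + 1) → Vec k N := l ∘ b with hC
  -- the determinant
  set M : Matrix (Fin (N + 1)) (Fin (N + 1)) F := Matrix.of fun (a i : Fin (N + 1)) =>
        (Fin.cases (En.aff (C a)) (fun i : Fin N => En.cst (C a ⟨N - (i : ℕ), by omega⟩)) i : F)
    with hM
  set M0 : Matrix (Fin (N + 1)) (Fin (N + 1)) k := Matrix.of fun (a i : Fin (N + 1)) =>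
        (Fin.cases (C a 0) (fun i : Fin N => (C a ⟨N - (i : ℕ), by omega⟩)) i : k)
    with hM0
  have hM0det : M0.det ≠ 0 := by
    intro h
    rw [← Matrix.exists_vecMul_eq_zero_iff] at h
    obtain ⟨g, hg, h⟩ := h
    apply hg
    have h1 : ∑ a, g a • C a = 0 := by
      funext m
      rw [Finset.sum_apply]
      by_cases hm : m = 0
      · have h2 := congrFun h 0
        subst hm
        simpa [Matrix.vecMul, dotProduct, hM0] using h2
      · have hm1 : 0 < (m : ℕ) := by
          rcases Nat.eq_zero_or_pos (m : ℕ) with h3 | h3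
          · exact absurd (Fin.ext h3) hm
          · exact h3
        have h2 := congrFun h (Fin.succ ⟨N - (m : ℕ), by omega⟩)
        have h3 : (⟨N - (N - (m : ℕ)), by omega⟩ : Fin (N + 1)) = m := Fin.ext (by
          have := m.2
          simp; omega)
        simpa [Matrix.vecMul, dotProduct, hM0, h3] using h2
    rw [Fintype.linearIndependent_iff] at hb
    funext a
    exact hb g h1 a
  have hMdet : M.det = En.cst M0.det := by
    -- column operations
    set M1 : Matrix (Fin (N + 1)) (Fin (N + 1)) F := M0.map En.cst with hM1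
    have h1 : En.cst M0.det = M1.det := by rw [hM1, RingHom.map_det]; rfl
    rw [h1]
    have h2 : ∀ s : Finset (Fin N), (M1.updateCol 0 (fun a => En.cst (C a 0) +
        ∑ i ∈ s, En.y i * En.cst (C a i.succ))).det = M1.det := by
      intro s
      classical
      induction s using Finset.induction_on with
      | empty =>
        congr 1
        ext a i
        refine Fin.cases ?_ (fun i => ?_) i
        · simp [hM1, hM0]
        · rw [Matrix.updateCol_ne (Fin.succ_ne_zero i)]
      | insert i s hi ih =>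
        have h3 : (fun a => En.cst (C a 0) + ∑ i ∈ insert i s, En.y i * En.cst (C a i.succ)) =
            (fun a => En.cst (C a 0) + ∑ i ∈ s, En.y i * En.cst (C a i.succ)) +
            En.y i • (fun a => En.cst (C a i.succ)) := by
          funext a
          rw [Finset.sum_insert hi]
          simp only [Pi.add_apply, Pi.smul_apply, smul_eq_mul]
          ring
        rw [h3, Matrix.det_updateCol_add, ih, Matrix.det_updateCol_smul]
        have h4 : (M1.updateCol 0 (fun a => En.cst (C a i.succ))).det = 0 := by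
          refine Matrix.det_zero_of_column_eq (i := 0)
            (j := Fin.succ ⟨N - ((i : ℕ) + 1), by omega⟩) (Fin.succ_ne_zero _).symm ?_
          intro a
          rw [Matrix.updateCol_self, Matrix.updateCol_ne (Fin.succ_ne_zero _)]
          have h5 : (⟨N - (N - ((i : ℕ) + 1)), by omega⟩ : Fin (N + 1)) = i.succ := Fin.ext (by
            have := i.2
            simp; omega)
          simp [hM1, hM0, h5]
        rw [h4, mul_zero, add_zero]
    rw [← h2 Finset.univ]
    congr 1
    ext a i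
    refine Fin.cases ?_ (fun i => ?_) i
    · rw [Matrix.updateCol_self]
      simp only [hM, Matrix.of_apply, Fin.cases_zero]
      rw [En.aff_def]
      congr 1
      exact Finset.sum_congr rfl fun i _ => mul_comm _ _
    · rw [Matrix.updateCol_ne (Fin.succ_ne_zero _)]
      simp [hM1, hM0, hM]
  refine ⟨M0.det, hM0det, ?_⟩
  have hlap := logf_laplace En (le_refl N) C (fun a => hl _)
  have h6 := congrArg L hlap
  rw [← hM, hMdet, mul_comm, map_cst, map_sum] at h6
  have h7 : ∏ a, (En.aff (C a))⁻¹ = ∏ a, (En.aff (l (b a)))⁻¹ := rfl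
  rw [h7, smul_eq_mul] at h6
  rw [← h6, S_succ l α C hb]
  have hspan : Submodule.span k (Set.range C) = ⊤ := by
    refine hb.span_eq_top_of_card_eq_finrank' ?_
    simp
  rw [hspan]
  have hrho : rho l (⊤ : Submodule k (Vec k N)) Ψ = Ψ := by
    have h8 : resW l (⊤ : Submodule k (Vec k N)) = LinearMap.id := by
      apply LinearMap.ext
      intro x
      funext i
      simp [resW]
    unfold rho
    rw [h8, ExteriorAlgebra.map_id]
    rfl
  rw [hrho, mul_inv_cancel_left₀ hal]
  refine Finset.sum_congr rfl fun i _ => ?_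
  rw [map_zsmul]
  congr 1
  exact hL (b ∘ i.succAbove)

end Pool.Agent.helper67.ND
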