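import Mathlib
import Pool.Agent.helper67.ND.G2b

/-! Assembly, part 3: evaluation of polynomials. -/

namespace Pool.Agent.helper67.ND

open scoped BigOperators
open MvPolynomial

variable {k K F : Type} [Field k] [Field K] [Field F] [Algebra k K] [Algebra K F] {N : ℕ}
variable {ι : Type} [Fintype ι]

/-- evaluation on the chart -/
noncomputable def ev (En : Env K F N) (Φ : (Fin (N + 1) → k) ≃ₗ[k] Vec k N) :
    MvPolynomial (Fin (N + 1)) K →ₐ[K] F :=
  aeval (fun i => En.aff (Φ (Pi.single i 1)))

lemma ev_lin (En : Env K F N) (Φ : (Fin (N + 1) → k) ≃ₗ[k] Vec k N) (v : Fin (N + 1) → k) :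
    ev En Φ (map (algebraMap k K) (∑ j, C (v j) * X j)) = En.aff (Φ v) := by
  have h1 : v = ∑ j, v j • (Pi.single j 1 : Fin (N + 1) → k) := by
    funext i
    simp [Finset.sum_apply, Pi.single_apply]
  conv_rhs => rw [h1, map_sum, En.aff_sum]
  rw [map_sum, map_sum]
  refine Finset.sum_congr rfl fun j _ => ?_
  rw [map_mul, map_mul, map_C, map_X, map_smul, En.aff_smul]
  unfold ev
  rw [aeval_C, aeval_X]
  rfl

lemma ev_D (En : Env K F N) (Φ : (Fin (N + 1) → k) ≃ₗ[k] Vec k N) (j : Fin N)
    (p : MvPolynomial (Fin (N + 1)) K) :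
    En.D j (ev En Φ p) = ∑ i, En.cst (Φ (Pi.single i 1) j.succ) * ev En Φ (pderiv i p) := by
  classical
  induction p using MvPolynomial.induction_on with
  | C a =>
    unfold ev
    simp
  | add p q hp hq =>
    simp only [map_add, hp, hq, mul_add, Finset.sum_add_distrib]
  | mul_X p n hp =>
    rw [map_mul, Derivation.leibniz, hp]
    have h1 : ev En Φ (X n) = En.aff (Φ (Pi.single n 1)) := by unfold ev; rw [aeval_X]
    rw [h1, En.D_aff]
    have h2 : ∀ i, ev En Φ (pderiv i (p * X n)) =
        ev En Φ p * (if n = i then 1 else 0) +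
          En.aff (Φ (Pi.single n 1)) * ev En Φ (pderiv i p) := by
      intro i
      rw [Derivation.leibniz, pderiv_X, map_add, smul_eq_mul, smul_eq_mul, map_mul, map_mul, h1]
      congr 2
      by_cases h : n = i
      · subst h; simp
      · rw [if_neg h, Pi.single_eq_of_ne h, map_zero]
    simp only [h2, mul_add, Finset.sum_add_distrib, smul_eq_mul]
    congr 1
    · rw [Finset.sum_eq_single n]
      · rw [if_pos rfl]; ring
      · intro i _ hi; rw [if_neg (Ne.symm hi)]; ring
      · intro h; exact absurd (Finset.mem_univ n) h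
    · rw [Finset.mul_sum]
      exact Finset.sum_congr rfl fun i _ => by ring

lemma euler {n : ℕ} {A : Type} [CommRing A] (e : ℕ) (p : MvPolynomial (Fin n) A)
    (hp : p.IsHomogeneous e) : ∑ i, X i * pderiv i p = C (e : A) * p := by
  have := hp.sum_X_mul_pderiv
  rw [this, nsmul_eq_mul]
  simp

end Pool.Agent.helper67.ND
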