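import Mathlib
import Pool.Agent.helper67.ND.Defs

/-! The field of rational functions with its partial derivatives. -/

namespace Pool.Agent.helper67.ND

open scoped BigOperators
open MvPolynomial

section

variable {K A F : Type} [Field K] [CommRing A] [IsDomain A] [Algebra K A] [Field F]
  [Algebra A F] [Algebra K F] [IsScalarTower K A F] [IsFractionRing A F]

/-- the ring map `a ↦ (a, d a)` -/
noncomputable def dualHom (d : Derivation K A A) : A →+* TrivSqZeroExt F F where
  toFun a := TrivSqZeroExt.inl (algebraMap A F a) + TrivSqZeroExt.inr (algebraMap A F (d a))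
  map_one' := by ext <;> simp
  map_mul' a b := by
    ext
    · simp
    · simp only [Derivation.leibniz, smul_eq_mul, map_add, map_mul, TrivSqZeroExt.snd_add,
        TrivSqZeroExt.snd_inl, TrivSqZeroExt.snd_inr, zero_add, TrivSqZeroExt.snd_mul,
        TrivSqZeroExt.fst_add, TrivSqZeroExt.fst_inl, TrivSqZeroExt.fst_inr, add_zero,
        MulOpposite.smul_eq_mul_unop, MulOpposite.unop_op]
      ring
  map_zero' := by ext <;> simp
  map_add' a b := by
    ext
    · simp only [map_add, TrivSqZeroExt.fst_add, TrivSqZeroExt.fst_inl, TrivSqZeroExt.fst_inr,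
        add_zero]
    · simp only [map_add, TrivSqZeroExt.snd_add, TrivSqZeroExt.snd_inl, TrivSqZeroExt.snd_inr,
        zero_add]

lemma dualHom_fst (d : Derivation K A A) (a : A) :
    (dualHom (F := F) d a).fst = algebraMap A F a := by
  simp only [dualHom, RingHom.coe_mk, MonoidHom.coe_mk, OneHom.coe_mk, TrivSqZeroExt.fst_add,
    TrivSqZeroExt.fst_inl, TrivSqZeroExt.fst_inr, add_zero]

lemma dualHom_snd (d : Derivation K A A) (a : A) :
    (dualHom (F := F) d a).snd = algebraMap A F (d a) := by
  simp only [dualHom, RingHom.coe_mk, MonoidHom.coe_mk, OneHom.coe_mk, TrivSqZeroExt.snd_add,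
    TrivSqZeroExt.snd_inl, TrivSqZeroExt.snd_inr, zero_add]

/-- its extension to the field of fractions -/
noncomputable def dualLift (d : Derivation K A A) : F →+* TrivSqZeroExt F F :=
  IsLocalization.lift (M := nonZeroDivisors A) (g := dualHom (F := F) d) (by
    intro y
    rw [TrivSqZeroExt.isUnit_iff_isUnit_fst, dualHom_fst]
    exact isUnit_iff_ne_zero.2 (by
      have := nonZeroDivisors.ne_zero y.2
      simpa using this))

lemma dualLift_alg (d : Derivation K A A) (a : A) :
    dualLift (F := F) d (algebraMap A F a) = dualHom d a := by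
  unfold dualLift
  exact IsLocalization.lift_eq _ _

lemma dualLift_fst (d : Derivation K A A) (f : F) : (dualLift (F := F) d f).fst = f := by
  have h : (TrivSqZeroExt.fstHom F F F).toRingHom.comp (dualLift (F := F) d) = RingHom.id F := by
    apply IsLocalization.ringHom_ext (nonZeroDivisors A)
    ext a
    simp [dualLift_alg, dualHom_fst]
  exact RingHom.congr_fun h f

/-- the extension of a derivation to the field of fractions -/
noncomputable def extD (d : Derivation K A A) : Derivation K F F where
  toFun f := (dualLift (F := F) d f).snd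
  map_add' a b := by simp
  map_smul' c a := by
    have h1 : (dualLift (F := F) d (algebraMap K F c)).snd = 0 := by
      rw [IsScalarTower.algebraMap_apply K A F, dualLift_alg, dualHom_snd]
      simp
    rw [Algebra.smul_def, map_mul, TrivSqZeroExt.snd_mul, h1, dualLift_fst]
    simp [Algebra.smul_def]
  map_one_eq_zero' := by simp
  leibniz' a b := by
    simp only [LinearMap.coe_mk, AddHom.coe_mk, map_mul, TrivSqZeroExt.snd_mul, dualLift_fst,
      smul_eq_mul, MulOpposite.smul_eq_mul_unop, MulOpposite.unop_op]
    ring

lemma extD_alg (d : Derivation K A A) (a : A) :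
    extD (F := F) d (algebraMap A F a) = algebraMap A F (d a) := by
  have : extD (F := F) d (algebraMap A F a) = (dualLift (F := F) d (algebraMap A F a)).snd := rfl
  rw [this, dualLift_alg, dualHom_snd]

lemma deriv_eq_zero (D : Derivation K F F) (h : ∀ a : A, D (algebraMap A F a) = 0) (f : F) :
    D f = 0 := by
  obtain ⟨a, b, hb, rfl⟩ := IsFractionRing.div_surjective (A := A) f
  have hb' : algebraMap A F b ≠ 0 := by
    have := nonZeroDivisors.ne_zero hb
    simpa using this
  have h1 : D (algebraMap A F b * (algebraMap A F a / algebraMap A F b)) = 0 := by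
    rw [mul_div_cancel₀ _ hb']; exact h a
  rw [Derivation.leibniz, h b, smul_zero, add_zero, smul_eq_mul] at h1
  exact (mul_eq_zero.1 h1).resolve_left hb'

end

/-- existence of the environment -/
theorem exists_env (K : Type) [Field K] (N : ℕ) :
    ∃ (F : Type) (_ : Field F) (_ : Algebra K F), Nonempty (Env K F N) := by
  refine ⟨FractionRing (MvPolynomial (Fin N) K), inferInstance, inferInstance, ⟨?_⟩⟩
  refine ⟨fun i => algebraMap (MvPolynomial (Fin N) K) _ (X i),
    fun i => extD (pderiv i), ?_, ?_⟩
  · intro i j
    rw [extD_alg, pderiv_X]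
    by_cases h : i = j
    · subst h; simp
    · rw [Pi.single_eq_of_ne (Ne.symm h), if_neg h, map_zero]
  · intro i j f
    have h1 : ⁅(extD (A := MvPolynomial (Fin N) K) (pderiv i) :
        Derivation K (FractionRing (MvPolynomial (Fin N) K))
        (FractionRing (MvPolynomial (Fin N) K))),
        extD (A := MvPolynomial (Fin N) K) (pderiv j)⁆ f = 0 := by
      refine deriv_eq_zero (A := MvPolynomial (Fin N) K) _ (fun a => ?_) f
      rw [Derivation.commutator_apply, extD_alg, extD_alg, extD_alg, extD_alg, ← map_sub]
      have h2 : ⁅(pderiv i : Derivation K (MvPolynomial (Fin N) K) (MvPolynomial (Fin N) K)),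
          (pderiv j : Derivation K (MvPolynomial (Fin N) K) (MvPolynomial (Fin N) K))⁆ = 0 := by
        refine MvPolynomial.derivation_ext fun n => ?_
        rw [Derivation.commutator_apply, pderiv_X (R := K), pderiv_X (R := K)]
        have h3 : ∀ a b : Fin N, (Pi.single a 1 : Fin N → MvPolynomial (Fin N) K) b =
            C (if b = a then (1 : K) else 0) := by
          intro a b
          rw [Pi.single_apply]
          split_ifs <;> simp
        rw [h3, h3, pderiv_C, pderiv_C]
        simp
      have h4 := congrArg (fun D : Derivation K (MvPolynomial (Fin N) K)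
        (MvPolynomial (Fin N) K) => D a) h2
      simp only [Derivation.commutator_apply, Derivation.zero_apply] at h4
      rw [h4, map_zero]
    rw [Derivation.commutator_apply] at h1
    exact sub_eq_zero.1 h1

end Pool.Agent.helper67.ND
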