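import Mathlib
import Pool.Agent.helper67.ND.G5
import Pool.Agent.helper31.ND_G3
import Pool.Agent.helper31.ND_C4
import Pool.Agent.helper43.NDB.Main

/-! Assembly, part 5: the algebraic main theorem. -/

namespace Pool.Agent.helper67.ND

open scoped BigOperators
open MvPolynomial

variable {k K : Type} [Field k] [Field K] [Algebra k K]

section

variable {ι : Type} {V V' : Type} [AddCommGroup V] [Module k V] [AddCommGroup V'] [Module k V']

lemma span_scale (Φ : V ≃ₗ[k] V') (l : ι → V) (c : ι → k) (hc : ∀ i, c i ≠ 0) (s : Set ι) :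
    Submodule.span k ((fun i => c i • Φ (l i)) '' s) =
      (Submodule.span k (l '' s)).map (Φ : V →ₗ[k] V') := by
  rw [Submodule.map_span]
  apply le_antisymm
  · rw [Submodule.span_le]
    rintro _ ⟨i, hi, rfl⟩
    exact Submodule.smul_mem _ _ (Submodule.subset_span ⟨l i, ⟨i, hi, rfl⟩, rfl⟩)
  · rw [Submodule.span_le]
    rintro _ ⟨_, ⟨i, hi, rfl⟩, rfl⟩
    have h1 : (Φ : V →ₗ[k] V') (l i) = (c i)⁻¹ • (c i • Φ (l i)) := by
      rw [smul_smul, inv_mul_cancel₀ (hc i), one_smul]; rfl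
    rw [h1]
    exact Submodule.smul_mem _ _ (Submodule.subset_span ⟨i, hi, rfl⟩)

lemma span_scale' (Φ : V ≃ₗ[k] V') (l : ι → V) (s : Set ι) :
    Submodule.span k ((fun i => Φ (l i)) '' s) =
      (Submodule.span k (l '' s)).map (Φ : V →ₗ[k] V') := by
  have := span_scale Φ l (fun _ => (1 : k)) (fun _ => one_ne_zero) s
  simpa using this

lemma map_eq_top_iff' (Φ : V ≃ₗ[k] V') (W : Submodule k V) :
    W.map (Φ : V →ₗ[k] V') = ⊤ ↔ W = ⊤ := by
  constructor
  · intro h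
    rw [eq_top_iff]
    intro x _
    have hx : Φ x ∈ W.map (Φ : V →ₗ[k] V') := by rw [h]; trivial
    obtain ⟨y, hy, hyx⟩ := hx
    have : y = x := Φ.injective hyx
    rwa [← this]
  · rintro rfl
    rw [eq_top_iff]
    intro x _
    exact ⟨Φ.symm x, trivial, by simp⟩

lemma Conn.scale (Φ : V ≃ₗ[k] V') (l : ι → V) (c : ι → k) (hc : ∀ i, c i ≠ 0)
    (h : Conn (k := k) l) : Conn (k := k) (fun i => c i • Φ (l i)) := by
  intro s hs hs' hdis
  apply h s hs hs'
  rw [span_scale Φ l c hc, span_scale Φ l c hc] at hdis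
  rw [Submodule.disjoint_def] at hdis ⊢
  intro x hx hx'
  have := hdis (Φ x) ⟨x, hx, rfl⟩ ⟨x, hx', rfl⟩
  exact (Φ.map_eq_zero_iff).1 this

end

/-- The algebraic main theorem, from the existence of the environment. -/
theorem alg_main_of [CharZero k]
    (henv : ∀ N : ℕ, ∃ (F : Type) (_ : Field F) (_ : Algebra K F), Nonempty (Env K F N))
    {ι : Type} [Fintype ι] {n : ℕ} (hn : 1 ≤ n) (l : ι → Fin n → k)
    (hl : ∀ i, l i ≠ 0) (μ : ι → ℕ) (hμ : ∀ i, 1 ≤ μ i) (hne : Nonempty ι)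
    (hspan : Submodule.span k (Set.range l) = ⊤) (hconn : Conn (k := k) l)
    (R : Subring K) (hk : ∀ c : k, algebraMap k K c ∈ R) (t : K) (ht : t ∈ R)
    (hunit : ∀ m : ℕ, 1 ≤ m → ∃ u ∈ R, u * ((m : K) + t * (∑ i, μ i : ℕ)) = 1)
    (htr : ∀ (c : k) (m : ℕ), 1 ≤ m → algebraMap k K c + m * t ≠ 0) :
    ∃ (κ : Fin n → K) (L : ℕ → MvPolynomial (Fin n) K →ₗ[K] K),
      (∀ i, κ i ∈ R) ∧
      (∀ m p, L (m + 1) (map (algebraMap k K) (arrP l μ) * p) = L m p) ∧
      (∀ (i : Fin n) (m e : ℕ) (p : MvPolynomial (Fin n) K), p.IsHomogeneous e →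
        L (m + 1) (map (algebraMap k K) (arrP l μ) * pderiv i p +
          C (- (n : K) / (∑ i, μ i : ℕ) + t - m) *
            (pderiv i (map (algebraMap k K) (arrP l μ)) * p)) =
          κ i * ((e : K) - m * (∑ i, μ i : ℕ) - 1 + t * (∑ i, μ i : ℕ)) * L m p) ∧
      (∀ h : MvPolynomial (Fin n) K, (∀ m, h.coeff m ∈ R) →
        L 0 (map (algebraMap k K) (arrP l μ) * h) ∈ R) ∧
      ∃ u ∈ R, u * L 0 1 = 1 := by
  classical
  obtain ⟨N, rfl⟩ : ∃ N, n = N + 1 := ⟨n - 1, by omega⟩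
  obtain ⟨F, _, _, ⟨En⟩⟩ := henv N
  obtain ⟨Φ, hΦ⟩ := Pool.Agent.helper31.NDG3.exists_chart l
  obtain ⟨H, hH, hs⟩ := Pool.Agent.helper31.NDC4.exists_tower
    (Finset.univ.image (fun i => (Φ (l i) : Vec k N))) (by
      intro v hv
      obtain ⟨i, _, rfl⟩ := Finset.mem_image.1 hv
      intro h
      exact hl i ((Φ.map_eq_zero_iff).1 h))
  have hs' : ∀ i, ∃ c : k, c ≠ 0 ∧ c • Φ (l i) ∈ H := fun i =>
    hs _ (Finset.mem_image.2 ⟨i, Finset.mem_univ i, rfl⟩)
  choose c hc hcH using hs'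
  have hl'0 : ∀ i, c i • Φ (l i) ≠ 0 := fun i => hH.ne_zero (hcH i)
  have hspan' : Submodule.span k (Set.range (fun i => c i • Φ (l i))) = ⊤ := by
    rw [← Set.image_univ, span_scale Φ l c hc, map_eq_top_iff', Set.image_univ, hspan]
  have hgen : ∀ s : Set ι, Submodule.span k ((fun i => c i • Φ (l i)) '' s) ≠ ⊤ →
      e0 k N ∉ Submodule.span k ((fun i => c i • Φ (l i)) '' s) := by
    intro s hs h
    rw [span_scale Φ l c hc] at hs h
    rw [Ne, map_eq_top_iff'] at hs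
    apply hΦ s hs
    rw [span_scale' Φ l s]
    exact h
  have hB := Pool.Agent.helper43.NDB.exists_good (k := k) (K := K) (fun i => c i • Φ (l i))
    hl'0 hne hspan' (hconn.scale Φ l c hc)
  have hfr : Module.finrank k (Vec k N) = N + 1 := by simp
  rw [hfr] at hB
  obtain ⟨b, Ψ, hb, hgood⟩ := hB
  have := exists_functional En hH Φ l c hc hcH hgen μ hμ R hk t ht hunit htr hne b Ψ hb hgood
  exact this

end Pool.Agent.helper67.ND
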