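import Mathlib
import Pool.Agent.helper67.ND.G1
import Pool.Agent.helper67.ND.G6
import Pool.Agent.helper14.ND_F

/-! The algebraic main theorem over the complex numbers. -/

namespace Pool.Agent.helper67.ND

open Pool.Agent.helper14.CND

theorem algMain : AlgMain := by
  intro ι _ n hn l hl μ hμ hne hspan hconn R hk t ht hunit htr
  exact alg_main_of (fun N => exists_env _ N) hn l hl μ hμ hne hspan hconn R hk t ht hunit htr

end Pool.Agent.helper67.ND
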